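import Pool.Agent.Work.MP_7b0bad_ag.AdT.Defs
import Pool.Agent.Work.MP_7b0bad_ag.SL.Stmts

set_option autoImplicit false

/-!
# Block AdT: the covers `Y ^ (Q ^ 2) + g Y ^ Q + Y`, and the full conjecture for `SL_2`, `PSL_2` in the
defining characteristic: statements

`v = A.valuation`, `m = A.nonunits`, `D` = decomposition group of `A` (`σ • A = A`), `r = p ^ n`
odd, `Q = r ^ 2`, `d = r (r + 1) / 2`, `e = (r - 1) / 2`, `j = (r ^ 2 + 1) / 2 = d - e`,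
`g = x ^ d - x ^ e`.  The models are the files of the block Ad (`Ad/*.lean`).
-/

open Polynomial Pointwise Matrix

namespace MP7b0bad.AdT

open SnT (cc xx)
open MT (Bor2 h2 u2 Rz Nz)
open Ad (U2)

/-! ## The cover -/

/-- [TSep] as `DIrr`, without the irreducibility: `F = Y^(Q^2-1) + g Y^(Q-1) + 1`,
`Y F' = -Y^(Q^2-1) - g Y^(Q-1) = 1 - F` -/
def TSep : Prop := ∀ (k : Type) [Field k] (r : ℕ), 2 ≤ r → ((r : ℕ) : k) = 0 →
  (FT k r).Monic ∧ (FT k r).natDegree = r ^ 4 - 1 ∧ (FT k r).Separable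

/-- [TUnr] as `DUnr` (`Ad/DUnr.lean`): `g ∈ A` if `x ∈ A` -/
def TUnr : Prop := ∀ (p : ℕ) [Fact p.Prime] (k : Type) [Field k] [CharP k p] (n : ℕ), 0 < n →
  ∀ (L : Type) [Field L] [Algebra (RatFunc k) L]
  [IsSplittingField (RatFunc k) L (FT k (p ^ n))] (A : ValuationSubring L), (∀ c : k, cc k L c ∈ A) →
  xx k L ∈ A → ValuationSubring.inertiaSubgroup (RatFunc k) A = ⊥

/-- [TVal] as `DVal` (`Ad/DVal.lean`), `v(g) = v(x)^d` -/
def TVal : Prop := ∀ (k : Type) [Field k] (r : ℕ), 3 ≤ r → ∀ (L : Type) [Field L]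
  [Algebra (RatFunc k) L] (A : ValuationSubring L), AtInfty (k := k) A → ∀ y ∈ Vt k r L, y ≠ 0 →
  (y ∈ A.nonunits ∧ A.valuation y ^ (r ^ 2 - 1) * A.valuation (xx k L) ^ (r * (r + 1) / 2) = 1) ∨
    (y ∉ A ∧ A.valuation y ^ (r ^ 4 - r ^ 2) = A.valuation (xx k L) ^ (r * (r + 1) / 2))

/-- [TBas] (hSep, hVal) as `DBas` (`Ad/DBas.lean`) -/
def TBas : Prop := ∀ (p : ℕ) [Fact p.Prime] (k : Type) [Field k] [CharP k p] (n : ℕ), 0 < n →
  p ≠ 2 → ∀ (E : Type) [Field E] [Finite E], Nat.card E = (p ^ n) ^ 2 → ∀ (ι : E →+* k) (L : Type)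
  [Field L] [Algebra (RatFunc k) L] [IsSplittingField (RatFunc k) L (FT k (p ^ n))]
  (A : ValuationSubring L), AtInfty (k := k) A → ∃ z y : L, Bt ι (p ^ n) A z y

/-- [TRep] as `DRep` (`Ad/DRep.lean`), and the Moore determinant `z y^Q - z^Q y` -/
def TRep : Prop := ∀ (p : ℕ) [Fact p.Prime] (k : Type) [Field k] [CharP k p] (n : ℕ), 0 < n →
  ∀ (E : Type) [Field E] [Finite E], Nat.card E = (p ^ n) ^ 2 → ∀ (ι : E →+* k) (L : Type)
  [Field L] [Algebra (RatFunc k) L] [IsSplittingField (RatFunc k) L (FT k (p ^ n))]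
  (A : ValuationSubring L) (z y : L), Bt ι (p ^ n) A z y →
  (∃ ρ : (L ≃ₐ[RatFunc k] L) →* SpecialLinearGroup (Fin 2) E,
    Function.Injective ρ ∧ ∀ σ : L ≃ₐ[RatFunc k] L,
      σ z = cc k L (ι ((ρ σ).1 0 0)) * z + cc k L (ι ((ρ σ).1 1 0)) * y ∧
      σ y = cc k L (ι ((ρ σ).1 0 1)) * z + cc k L (ι ((ρ σ).1 1 1)) * y) ∧
  ∃ θ : E, θ ≠ 0 ∧ z * y ^ ((p ^ n) ^ 2) - z ^ ((p ^ n) ^ 2) * y = cc k L (ι θ)

/-- [TKap] (hVal) the residue `κ` of `K = z^(-2(r-1)) x^(-r)`.  `v(z)^(Q-1) v(x)^d = 1`, so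
`v(K)^((r+1)/2) = 1` and `v(K) = 1`; `K ≡ κ` for a constant `κ ≠ 0` (`k` is the residue field).
`z^(Q-1) (g + z^(Q^2-Q)) = -1`, so `K^((r+1)/2) = z^(-(Q-1)) x^(-d) = -(g + z^(Q^2-Q)) x^(-d) ≡ -1`,
`κ^((r+1)/2) = -1`. -/
def TKap : Prop := ∀ (p : ℕ) [Fact p.Prime] (k : Type) [Field k] [IsAlgClosed k] [CharP k p]
  (n : ℕ), 0 < n → p ≠ 2 → ∀ (L : Type) [Field L] [Algebra (RatFunc k) L] [FiniteDimensional (RatFunc k) L]
  [IsGalois (RatFunc k) L] (A : ValuationSubring L),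
  AtInfty (k := k) A → ∀ z ∈ Vt k (p ^ n) L, z ≠ 0 → z ∈ A.nonunits →
  ∃ κ : k, κ ≠ 0 ∧ κ ^ ((p ^ n + 1) / 2) = -1 ∧
    (z ^ (2 * (p ^ n - 1)) * xx k L ^ (p ^ n))⁻¹ - cc k L κ ∈ A.nonunits

/-- [TApx] (hVal, hKap) the approximation.  Let `K`, `κ` be as in `TKap`, `U = K / κ = 1 - u`, `u ∈ m`;
`N = (r + 1) / 2`, `U^N = 1 - x^(-j) + ε`, `ε = z^(Q^2-Q) x^(-d)`, `v(ε) = v(x)^(-(Q+1)d)`.
`(1 - u)^N = 1 - N u + u^2 t`, `t ∈ A`, and `2 N = r + 1 = 1` in `k`; so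
`u (1 - 2 u t) = 2 x^(-j) - 2 ε`, hence `v(u) = v(x)^(-j)`, and `u - 2 x^(-j) = 2 u^2 t - 2 ε` has
`v ≤ v(x)^(-2j)`.  Choose `c` with `c^(r-1) = κ⁻¹`; then `c^(Q-1) = κ^(-(r+1)) = 1`, `c^r = c κ⁻¹`.
As `z^(-2r) x^(r e) = z^(-2) x^d K` (`r e = d - r`) and `z^(-(Q+1)) = - z^(-2) (g + z^(Q^2-Q))`, the
sum is `- c z^(-2) (x^d (u - 2 x^(-j)) + z^(Q^2-Q))`.  `v(z^(-2) z^(Q^2-Q)) < 1`, and the value of
the other term is at most `v(z)^(-2) v(x)^(d-2j)`, whose `(Q-1)`-th power is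
`v(x)^(2d - (2j-d)(Q-1)) < 1`: `r (r+1) < (r^2-r+2)(r^2-1)/2`. -/
def TApx : Prop := ∀ (p : ℕ) [Fact p.Prime] (k : Type) [Field k] [IsAlgClosed k] [CharP k p]
  (n : ℕ), 0 < n → p ≠ 2 → ∀ (L : Type) [Field L] [Algebra (RatFunc k) L] [FiniteDimensional (RatFunc k) L]
  [IsGalois (RatFunc k) L] (A : ValuationSubring L),
  AtInfty (k := k) A → ∀ z ∈ Vt k (p ^ n) L, z ≠ 0 → z ∈ A.nonunits →
  ∃ c : k, c ≠ 0 ∧ c ^ ((p ^ n) ^ 2) = c ∧
    (cc k L c * (z⁻¹) ^ 2 * xx k L ^ ((p ^ n - 1) / 2)) ^ (p ^ n) +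
      cc k L c * (z⁻¹) ^ 2 * xx k L ^ ((p ^ n - 1) / 2) +
      cc k L c * (z⁻¹) ^ ((p ^ n) ^ 2 + 1) ∈ A.nonunits

/-- [TUp] (hBas, hRep, hApx) upper bound for the wild inertia group.  Let `z, y` be a basis (`TBas`),
`θ` the Moore determinant, `c` as in `TApx` (`c = ι c'`, `c' ∈ E`, because `c^Q = c` and `E` has `Q`
elements), `h = c z^(-2) x^e`, `w = y / z`, `w₁ = - (c / θ) w`, `s = w₁^r - w₁ - h`.
`w^Q - w = θ z^(-(Q+1))`, so `w₁^Q - w₁ = - c z^(-(Q+1))` and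
`s^r + s = w₁^Q - w₁ - (h^r + h) ∈ m` by `TApx`.  So `s ∈ A`, and its residue `t` satisfies
`t^r = -t`.  There is `b ∈ E` with `b^r - b = t` (the kernel of `b ↦ b^r - b` on `E` has `r` elements
and all values `t` satisfy `t^r = -t`).  Replace `y` by `y + λ z`, `λ = b θ / c`: `w₁` becomes
`w₁ - b` and `s` becomes `s - t ∈ m`.  (The new pair is again a basis `Bt`.)  Put `β = -θ / c`,
`w₁ = w / β`.  If `σ ∈ D`, `σ z = z`, `σ y = y + b z`, then `σ w₁ = w₁ + b / β`, `σ h = h`, and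
`σ s - s = (b/β)^r - b/β ∈ m` is a constant, so it is `0`. -/
def TUp : Prop := ∀ (p : ℕ) [Fact p.Prime] (k : Type) [Field k] [IsAlgClosed k] [CharP k p]
  (n : ℕ), 0 < n → p ≠ 2 → ∀ (E : Type) [Field E] [Finite E], Nat.card E = (p ^ n) ^ 2 →
  ∀ (ι : E →+* k) (L : Type) [Field L] [Algebra (RatFunc k) L]
  [IsSplittingField (RatFunc k) L (FT k (p ^ n))] [FiniteDimensional (RatFunc k) L]
  [IsGalois (RatFunc k) L] (A : ValuationSubring L), AtInfty (k := k) A →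
  ∃ (z y : L) (β : E), Bt ι (p ^ n) A z y ∧ β ≠ 0 ∧ ∀ σ : L ≃ₐ[RatFunc k] L, σ • A = A →
    σ z = z → ∀ b : E, σ y = y + cc k L (ι b) * z → (b / β) ^ (p ^ n) = b / β

/-- [TTam] (hKap) `σ ∈ D`, `σ z = a z`: `K = (z^(2(r-1)) x^r)⁻¹ ≡ κ`, so `σ K ≡ κ` (`F8_dec`), and
`σ K = a^(-2(r-1)) K`; so `a^(2(r-1)) = 1` -/
def TTam : Prop := ∀ (p : ℕ) [Fact p.Prime] (k : Type) [Field k] [IsAlgClosed k] [CharP k p]
  (n : ℕ), 0 < n → p ≠ 2 → ∀ (L : Type) [Field L] [Algebra (RatFunc k) L]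
  [FiniteDimensional (RatFunc k) L] [IsGalois (RatFunc k) L]
  (A : ValuationSubring L), AtInfty (k := k) A → ∀ z ∈ Vt k (p ^ n) L, z ≠ 0 → z ∈ A.nonunits →
  ∀ σ : L ≃ₐ[RatFunc k] L, σ • A = A → ∀ a : k, σ z = cc k L a * z → a ^ (2 * (p ^ n - 1)) = 1

/-- [TCnt] (hVal, hBas) `γ = ∏_{σ ∈ D} σ y` is fixed by `D`, `v(γ) = v(y)^|D|`, so
`v(γ)^(Q^2-Q) = v(x)^(d |D|)`; `v(γ) = v(x)^t` (`SnT.SOrb_val`), and `t (Q^2-Q) = d |D|` gives
`|D| = 2 t r (r - 1)` (`SnT.SOrb_inj`).  Compare `AnT/AOrd.lean`. -/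
def TCnt : Prop := ∀ (p : ℕ) [Fact p.Prime] (k : Type) [Field k] [IsAlgClosed k] [CharP k p]
  (n : ℕ), 0 < n → p ≠ 2 → ∀ (L : Type) [Field L] [Algebra (RatFunc k) L]
  [FiniteDimensional (RatFunc k) L] [IsGalois (RatFunc k) L]
  (A : ValuationSubring L), AtInfty (k := k) A → ∀ y ∈ Vt k (p ^ n) L, y ∉ A →
  2 * p ^ n * (p ^ n - 1) ∣ Nat.card (A.decompositionSubgroup (RatFunc k))

/-- [TGrp] group theory.  `M ↦ M₀₀` is a homomorphism from `D` to the group `μ` of the elements of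
order dividing `2 (r - 1)` (`|μ| ≤ 2 (r - 1)`), the kernel is contained in
`{u2 b | (b/β)^r = b/β}` (`r` elements).  So both are equalities: `D` contains all these `u2 b`, and
an element `M` with `M₀₀ = a`, which is `u2 t * h2 a * (u2 t)⁻¹` for some `t` (`a ≠ a⁻¹`, because
`2 (r - 1) > 2`).  `φ` = conjugation by `(u2 t)⁻¹` followed by conjugation by `diag(β⁻¹, 1)`. -/
def TGrp : Prop := ∀ (p : ℕ) [Fact p.Prime] (F E : Type) [Field F] [Finite F] [Field E] [Finite E]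
  [CharP E p] (j : F →+* E) (a : Eˣ) (D : Subgroup (SpecialLinearGroup (Fin 2) E)) (β : E), p ≠ 2 →
  Nat.card E = Nat.card F ^ 2 → orderOf a = 2 * (Nat.card F - 1) → D ≤ Bor2 E → β ≠ 0 →
  (∀ M ∈ D, M.1 0 0 ^ (2 * (Nat.card F - 1)) = 1) →
  (∀ M ∈ D, M.1 0 0 = 1 → (M.1 0 1 / β) ^ Nat.card F = M.1 0 1 / β) →
  2 * Nat.card F * (Nat.card F - 1) ∣ Nat.card D →
  ∃ φ : SpecialLinearGroup (Fin 2) E ≃* SpecialLinearGroup (Fin 2) E,
    D.map φ.toMonoidHom = (U2 F).map (SpecialLinearGroup.map j) ⊔ Subgroup.zpowers (h2 a)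

/-- [TSeed] (hSep, hUnr, hRep, hUp, hTam, hCnt, hGrp) as `AdMain` (`Ad/AMain.lean`).  `L` a splitting
field of `FT`, `A` at infinity, `z, y, β` from `hUp`, `ρ` from `hRep`; `H₀ = ρ.range`; the image of
the decomposition group is in `Bor2 E` (`Bt.big`), and the conditions of `TGrp` hold, `φ`; then
`H = H₀.map φ` (`all_T0` for `H₀`). -/
def TSeed : Prop := ∀ (p : ℕ) [Fact p.Prime] (k : Type) [Field k] [IsAlgClosed k] [CharP k p]
  (F E : Type) [Field F] [Finite F] [Field E] [Finite E] [CharP E p] (j : F →+* E) (a : Eˣ),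
  p ≠ 2 → Nat.card E = Nat.card F ^ 2 → orderOf a = 2 * (Nat.card F - 1) →
  ∃ H : Subgroup (SpecialLinearGroup (Fin 2) E),
    Rz k ((U2 F).map (SpecialLinearGroup.map j)) (h2 a) H

/-! ## The full conjecture for `SL_2` and `PSL_2` -/

/-- [TNrm] `p` odd.  `P ≠ ⊥` is a `p`-group: after conjugation `P ≤ U2 F` (see `Ad/S2N.lean`), `c` is
upper triangular with diagonal `s`, `s⁻¹`.  If `s = s⁻¹` then `c = ±1` (order prime to `p`).
Otherwise `c` is conjugate to `h2 s` by an element of `U2 F` (which centralises `P`).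
`P = {u2 a | a ∈ M}` with `s^2 M ⊆ M`; the set of `x ∈ F` with `x M ⊆ M` is a subring, finite, so a
subfield `F'`, and contains `s^2`.  Take `0 ≠ a ∈ M`; `φ` = the conjugation with
`diag(a, 1)`, followed by the other conjugations. -/
def TNrm : Prop := ∀ (p : ℕ) [Fact p.Prime] (F : Type) [Field F] [Finite F] [CharP F p]
  (P : Subgroup (SpecialLinearGroup (Fin 2) F)) (c : SpecialLinearGroup (Fin 2) F), p ≠ 2 →
  Nz p P c → P ≠ ⊥ → ∃ (F' : Subfield F)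
    (φ : SpecialLinearGroup (Fin 2) F ≃* SpecialLinearGroup (Fin 2) F) (s : Fˣ),
    (s : F) ^ 2 ∈ F' ∧ (∀ b : F', φ (SpecialLinearGroup.map F'.subtype (u2 b)) ∈ P) ∧ φ (h2 s) = c

/-- [TLoc] (hLRz : Ad.LRz, hSeed) for every subfield `F'` and `s` with `s^2 ∈ F'` there is `H` with
`Rz k (U2 F') (h2 s) H` (in `SL_2(F)`).  If `s ∈ F'` use `hLRz` for `F'`.  Otherwise let
`E = F'(s)` (a subfield of `F` with `|F'|^2` elements, as `s^2 ∈ F'`, e.g. `{x | x^(|F'|^2) = x}`),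
`r = |F'|`; `s^(2(r-1)) = 1`; `E^*` is cyclic of order `r^2 - 1`, divisible by `2 (r - 1)` (`r` odd),
so there is `a ∈ E^*` of order `2 (r - 1)`, and `s` is a power of `a`.  Use `hSeed` for `F' → E`,
`MT.anax_pow` (`MT/ANax.lean`), and map `SL_2(E)` into `SL_2(F)`. -/
def TLoc : Prop := ∀ (p : ℕ) [Fact p.Prime] (k : Type) [Field k] [IsAlgClosed k] [CharP k p]
  (F : Type) [Field F] [Finite F] [CharP F p] (F' : Subfield F) (s : Fˣ), p ≠ 2 →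
  (s : F) ^ 2 ∈ F' → ∃ H : Subgroup (SpecialLinearGroup (Fin 2) F),
    Rz k ((U2 F').map (SpecialLinearGroup.map F'.subtype)) (h2 s) H

/-- [TSL2] (hNrm, hLoc, hMRz : MT.MRz, hSL : SL.SLFin, hMSL2 : MT.MSL2) THE FULL CONJECTURE for
`SL_2(F)`, `F` of characteristic `p`.  `p = 2`: `hMSL2`.  `p` odd, `P ≠ ⊥` (`⊤ ≠ ⊥`): `hNrm`,
`hLoc`, transported with `φ`: `Rz k P₀ c H`, `P₀ ≤ P`; `hSL` (`n = 2`, `i = 1`) gives
`Rel k (SL_2 F) P`, that is `Rz k P 1 ⊤` (`Occurs` and `Rel` : `all_T0`, `SL/SLFin.lean`); `hMRz`. -/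
def TSL2 : Prop := ∀ (k : Type) [Field k] [IsAlgClosed k] (p : ℕ) [Fact p.Prime] [CharP k p]
  (F : Type) [Field F] [Finite F] [CharP F p] (P : Subgroup (SpecialLinearGroup (Fin 2) F))
  (c : SpecialLinearGroup (Fin 2) F), Nz p P c →
  Subgroup.normalClosure (P : Set (SpecialLinearGroup (Fin 2) F)) = ⊤ →
  Rel k (SpecialLinearGroup (Fin 2) F) (P ⊔ Subgroup.zpowers c)

/-- [TPSL] (hSL2, hQuo : SL.SLQuo) THE FULL CONJECTURE for `PSL_2(F)`, `F` of characteristic `p`.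
The centre `Z` of `SL_2(F)` has order prime to `p`.  `P` lifts: `P'` = the Sylow `p`-subgroup of the
preimage of `P` (central extension by a group of order prime to `p`: the elements of order a power
of `p`), and `c'` any lift of `c`; `c'` has order prime to `p` and normalises `P'`.
`normalClosure P' ⊔ Z = ⊤`, so the quotient by `normalClosure P'` is abelian of order prime to `p`,
hence trivial, because `SL_2(F)` is generated by elements of order `p`. -/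
def TPSL : Prop := ∀ (k : Type) [Field k] [IsAlgClosed k] (p : ℕ) [Fact p.Prime] [CharP k p]
  (F : Type) [Field F] [Finite F] [CharP F p]
  (P : Subgroup (Matrix.ProjectiveSpecialLinearGroup (Fin 2) F))
  (c : Matrix.ProjectiveSpecialLinearGroup (Fin 2) F), Nz p P c →
  Subgroup.normalClosure (P : Set (Matrix.ProjectiveSpecialLinearGroup (Fin 2) F)) = ⊤ →
  Rel k (Matrix.ProjectiveSpecialLinearGroup (Fin 2) F) (P ⊔ Subgroup.zpowers c)

end MP7b0bad.AdT
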