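import Pool.Agent.Work.MP_7b0bad_ag.AdT.TKap

set_option autoImplicit false

/-!
# Block AdT, item TApx (helper2): the approximation of `z ^ (-(Q + 1))`
-/

open Polynomial Pointwise

namespace MP7b0bad.AdT

open SnT (cc xx)

theorem TApx_bin {L : Type} [Field L] (A : ValuationSubring L) {u : L} (hu : u ∈ A) (N : ℕ) :
    ∃ t ∈ A, (1 - u) ^ N = 1 - (N : L) * u + u ^ 2 * t := by
  induction N with
  | zero => exact ⟨0, zero_mem A, by simp⟩
  | succ N ih =>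
    obtain ⟨t, ht, h⟩ := ih
    have hNA : ((N : ℕ) : L) ∈ A := natCast_mem A N
    refine ⟨t + (N : L) - u * t, sub_mem (add_mem ht hNA) (mul_mem hu ht), ?_⟩
    rw [pow_succ, h]
    push_cast
    ring

/-- the algebraic identity for the sum -/
theorem TApx_alg {L : Type} [Field L] {x z c κ K u : L} {r m j s q : ℕ} (hx : x ≠ 0) (hz : z ≠ 0)
    (hκ : κ ≠ 0) (hc : c ^ r = c * κ⁻¹) (hr : 1 ≤ r) (hj : j + m = r * (m + 1))
    (hK : K = (z ^ (2 * (r - 1)) * x ^ r)⁻¹) (hu : K = κ * (1 - u))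
    (hroot : z ^ (s + q) + (x ^ (r * (m + 1)) - x ^ m) * z ^ s + 1 = 0) :
    (c * (z⁻¹) ^ 2 * x ^ m) ^ r + c * (z⁻¹) ^ 2 * x ^ m + c * (z⁻¹) ^ (s + 2) =
      -(c * ((z⁻¹) ^ 2 * (x ^ (r * (m + 1)) * (u - 2 * (x ^ j)⁻¹)) + (z⁻¹) ^ 2 * z ^ q)) := by
  have hxr : x ^ r ≠ 0 := pow_ne_zero _ hx
  have hxj : x ^ j ≠ 0 := pow_ne_zero _ hx
  have hzs : z ^ s ≠ 0 := pow_ne_zero _ hz
  have e1 : (z ^ s)⁻¹ = -(x ^ (r * (m + 1)) - x ^ m + z ^ q) := by
    apply inv_eq_of_mul_eq_one_right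
    rw [pow_add] at hroot
    linear_combination -hroot
  have e2 : (z⁻¹) ^ (s + 2) = (z⁻¹) ^ 2 * (z ^ s)⁻¹ := by
    rw [pow_add, inv_pow z s]; ring
  have e3 : x ^ (r * (m + 1)) * (x ^ j)⁻¹ = x ^ m := by
    rw [← hj, pow_add]
    field_simp
  have e4 : (c * (z⁻¹) ^ 2 * x ^ m) ^ r = c * κ⁻¹ * ((z⁻¹) ^ 2 * (x ^ (r * (m + 1)) * K)) := by
    rw [mul_pow, mul_pow, hc, hK, ← pow_mul, ← pow_mul]
    have e5 : (z⁻¹) ^ (2 * r) = (z⁻¹) ^ 2 * (z ^ (2 * (r - 1)))⁻¹ := by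
      rw [← inv_pow, ← pow_add]; congr 1; omega
    have e6 : x ^ (r * (m + 1)) = x ^ (m * r) * x ^ r := by
      rw [← pow_add]; congr 1; ring
    rw [e5, e6, mul_inv]
    field_simp
  rw [e4, e2, e1, hu]
  have e7 : κ⁻¹ * κ = 1 := inv_mul_cancel₀ hκ
  linear_combination (c * (z⁻¹) ^ 2 * x ^ (r * (m + 1)) * (1 - u)) * e7 -
    (2 * c * (z⁻¹) ^ 2) * e3

/-- the estimate in the value group -/
theorem TApx_val {Γ : Type} [LinearOrderedCommGroupWithZero Γ] {V W : Γ} {d s t : ℕ} (hW : 1 < W)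
    (hV0 : V ≠ 0) (h : V ^ s * W ^ d = 1) (hlt : d * s + 2 * d < t * s) :
    (V⁻¹) ^ 2 * (W ^ d * (W ^ t)⁻¹) < 1 := by
  have hW0 : W ≠ 0 := (zero_lt_one.trans hW).ne'
  by_contra hcon
  rw [not_lt] at hcon
  have h1 : V ^ 2 * W ^ t ≤ W ^ d := by
    have h2 : V ^ 2 * W ^ t * 1 ≤ V ^ 2 * W ^ t * ((V⁻¹) ^ 2 * (W ^ d * (W ^ t)⁻¹)) := by gcongr
    rw [mul_one] at h2
    refine h2.trans_eq ?_
    have e1 : V ^ 2 * (V⁻¹) ^ 2 = 1 := by rw [← mul_pow, mul_inv_cancel₀ hV0, one_pow]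
    have e2 : W ^ t * (W ^ t)⁻¹ = 1 := mul_inv_cancel₀ (pow_ne_zero _ hW0)
    calc V ^ 2 * W ^ t * ((V⁻¹) ^ 2 * (W ^ d * (W ^ t)⁻¹))
        = (V ^ 2 * (V⁻¹) ^ 2) * (W ^ t * (W ^ t)⁻¹) * W ^ d := by
          simp only [mul_assoc, mul_comm, mul_left_comm]
      _ = W ^ d := by rw [e1, e2, one_mul, one_mul]
  have h3 : (V ^ 2 * W ^ t) ^ s * W ^ (2 * d) ≤ (W ^ d) ^ s * W ^ (2 * d) := by gcongr
  have e3 : (V ^ 2 * W ^ t) ^ s * W ^ (2 * d) = W ^ (t * s) := by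
    have : (V ^ s * W ^ d) ^ 2 = 1 := by rw [h, one_pow]
    calc (V ^ 2 * W ^ t) ^ s * W ^ (2 * d) = (V ^ s * W ^ d) ^ 2 * W ^ (t * s) := by
          simp only [mul_pow, ← pow_mul]
          rw [mul_comm 2 s, mul_comm 2 d]
          simp only [mul_assoc, mul_comm, mul_left_comm]
      _ = W ^ (t * s) := by rw [this, one_mul]
  rw [e3, ← pow_mul, ← pow_add] at h3
  exact absurd h3 (not_le.2 (pow_lt_pow_right₀ hW hlt))

theorem prf_TApx (hVal : TVal) (hKap : TKap) : TApx := by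
  intro p _ k _ _ _ n hn hp L _ _ _ _ A hA z hz hz0 hzn
  obtain ⟨κ, hκ0, hκN, hκ⟩ := hKap p k n hn hp L A hA z hz hz0 hzn
  obtain ⟨r, hr⟩ : ∃ r, r = p ^ n := ⟨_, rfl⟩
  have hrk : ((r : ℕ) : L) = 0 := by
    have h1 : ((p : ℕ) : k) = 0 := CharP.cast_eq_zero k p
    have h2 : ((r : ℕ) : k) = 0 := by rw [hr, Nat.cast_pow, h1, zero_pow hn.ne']
    have h3 := congrArg (cc k L) h2
    rwa [map_natCast, map_zero] at h3
  rw [← hr] at hz hκ hκN ⊢
  have hp2 : Odd p := (Fact.out : p.Prime).odd_of_ne_two hp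
  have hr2 : Odd r := hr ▸ hp2.pow
  have hp3 : 3 ≤ p := by
    have := (Fact.out : p.Prime).two_le
    omega
  have hr3 : 3 ≤ r := by
    rw [hr]
    exact hp3.trans (Nat.le_self_pow hn.ne' p)
  obtain ⟨m, hm⟩ := hr2
  have hm1 : 1 ≤ m := by omega
  have hv : A.valuation z < 1 := (ValuationSubring.mem_nonunits_iff A).1 hzn
  have hx : 1 < A.valuation (xx k L) := by
    have h := hA.2
    rw [← A.valuation_le_one_iff, not_le] at h
    exact h
  have hx0 : xx k L ≠ 0 := by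
    intro h
    rw [h, map_zero] at hx
    exact absurd hx (not_lt.2 zero_le_one)
  have hN : (r + 1) / 2 = m + 1 := by omega
  have hrr : r * (r + 1) / 2 = r * (m + 1) := by
    rw [hm]
    have : (2 * m + 1) * (2 * m + 1 + 1) = 2 * ((2 * m + 1) * (m + 1)) := by ring
    rw [this, Nat.mul_div_cancel_left _ (by norm_num)]
  have he : (r - 1) / 2 = m := by omega
  have hs : 2 * (r - 1) * (m + 1) = r ^ 2 - 1 := by
    have h1 : r - 1 = 2 * m := by omega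
    rw [h1, hm]
    have : (2 * m + 1) ^ 2 = 2 * (2 * m) * (m + 1) + 1 := by ring
    omega
  have hd0 : m < r * (m + 1) := by nlinarith
  have hval : A.valuation z ^ (r ^ 2 - 1) * A.valuation (xx k L) ^ (r * (r + 1) / 2) = 1 := by
    rcases hVal k r hr3 L A hA z hz hz0 with h | h
    · exact h.2
    · exact absurd ((A.valuation_le_one_iff _).1 hv.le) h.1
  rw [hrr] at hval
  have hroot : z ^ (r ^ 2 - 1 + (r ^ 4 - r ^ 2)) +
      (xx k L ^ (r * (m + 1)) - xx k L ^ m) * z ^ (r ^ 2 - 1) + 1 = 0 := by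
    have h3 : z ^ (r ^ 4) + gx r (xx k L) * z ^ (r ^ 2) + z = 0 := hz
    rw [gx, hrr, he] at h3
    have h4 : 1 ≤ r ^ 2 := Nat.one_le_pow _ _ (by omega)
    have h5 : r ^ 2 ≤ r ^ 4 := Nat.pow_le_pow_right (by omega) (by norm_num)
    have e1 : z ^ (r ^ 4) = z ^ (r ^ 2 - 1 + (r ^ 4 - r ^ 2)) * z := by
      rw [← pow_succ]; congr 1; omega
    have e2 : z ^ (r ^ 2) = z ^ (r ^ 2 - 1) * z := by
      rw [← pow_succ]; congr 1; omega
    rw [e1, e2] at h3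
    have h6 : z * (z ^ (r ^ 2 - 1 + (r ^ 4 - r ^ 2)) +
      (xx k L ^ (r * (m + 1)) - xx k L ^ m) * z ^ (r ^ 2 - 1) + 1) = 0 := by
      linear_combination h3
    exact (mul_eq_zero.1 h6).resolve_left hz0
  have halg := TKap_alg (N := m + 1) hx0 hz0 hs rfl hd0.le hroot
  obtain ⟨j, hj⟩ : ∃ j, j = r * (m + 1) - m := ⟨_, rfl⟩
  have hjm : j + m = r * (m + 1) := by omega
  have h2j : 2 * j = r ^ 2 + 1 := by
    have h1 : r * (m + 1) = 2 * m * m + 3 * m + 1 := by rw [hm]; ring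
    have h2 : r ^ 2 = 4 * m * m + 4 * m + 1 := by rw [hm]; ring
    nlinarith
  rw [← hj] at halg
  have hκ1 : cc k L κ ≠ 0 := by
    intro h
    exact hκ0 ((map_eq_zero _).1 h)
  -- the element `u`
  obtain ⟨K, hK⟩ : ∃ K, K = (z ^ (2 * (r - 1)) * xx k L ^ r)⁻¹ := ⟨_, rfl⟩
  rw [← hK] at halg hκ
  obtain ⟨u, hu⟩ : ∃ u, u = 1 - (cc k L κ)⁻¹ * K := ⟨_, rfl⟩
  have hKu : K = cc k L κ * (1 - u) := by
    rw [hu]
    field_simp
    ring
  have hκA : (cc k L κ)⁻¹ ∈ A := by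
    rw [← map_inv₀]
    exact hA.1 _
  have hvu : A.valuation u < 1 := by
    have e : u = -((cc k L κ)⁻¹ * (K - cc k L κ)) := by
      rw [hu]
      field_simp
      ring
    rw [e, Valuation.map_neg, map_mul]
    rw [ValuationSubring.mem_nonunits_iff] at hκ
    calc _ ≤ 1 * A.valuation (K - cc k L κ) := by
          gcongr
          exact (A.valuation_le_one_iff _).2 hκA
      _ = A.valuation (K - cc k L κ) := one_mul _
      _ < 1 := hκ
  have huA : u ∈ A := (A.valuation_le_one_iff _).1 hvu.le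
  obtain ⟨t, htA, ht⟩ := TApx_bin A huA (m + 1)
  have htv : A.valuation t ≤ 1 := (A.valuation_le_one_iff _).2 htA
  have h2A : (2 : L) ∈ A := by
    have := natCast_mem A 2
    exact_mod_cast this
  have h2v : A.valuation (2 : L) ≤ 1 := (A.valuation_le_one_iff _).2 h2A
  obtain ⟨ε, hε⟩ : ∃ ε, ε = z ^ (r ^ 4 - r ^ 2) * (xx k L ^ (r * (m + 1)))⁻¹ := ⟨_, rfl⟩
  rw [← hε] at halg
  -- the equation of `u`
  have heq : u = 2 * (xx k L ^ j)⁻¹ - 2 * ε + 2 * (u ^ 2 * t) := by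
    have h1 : cc k L κ ^ (m + 1) = -1 := by
      rw [← map_pow, ← hN, hκN, map_neg, map_one]
    have h2 : K ^ (m + 1) = -(1 - u) ^ (m + 1) := by
      rw [hKu, mul_pow, h1]; ring
    rw [h2, ht] at halg
    have h3 : (2 : L) * ((m + 1 : ℕ) : L) = 1 := by
      have h4 : ((2 * (m + 1) : ℕ) : L) = ((r + 1 : ℕ) : L) := by congr 1; omega
      push_cast at h4 ⊢
      rw [h4, hrk, zero_add]
    linear_combination 2 * halg - u * h3
  have hvε : A.valuation ε ≤ (A.valuation (xx k L) ^ (2 * j))⁻¹ := by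
    have hr1 : 1 ≤ r ^ 2 := Nat.one_le_pow _ _ (by omega)
    have e1 : r ^ 4 - r ^ 2 = (r ^ 2 - 1) * r ^ 2 := by
      rw [Nat.sub_mul, one_mul]
      congr 1
      ring
    have e2 : A.valuation z ^ (r ^ 2 - 1) = (A.valuation (xx k L) ^ (r * (m + 1)))⁻¹ :=
      eq_inv_of_mul_eq_one_left hval
    rw [hε, map_mul, map_inv₀, map_pow, map_pow, e1, pow_mul, e2, inv_pow, ← mul_inv, ← pow_mul,
      ← pow_add]
    have h3 : 2 * j ≤ r * (m + 1) * r ^ 2 + r * (m + 1) := by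
      rw [h2j]
      have : 1 ≤ r * (m + 1) := by omega
      nlinarith
    have hpos : (0 : A.ValueGroup) < A.valuation (xx k L) ^ (2 * j) :=
      zero_lt_one.trans_le (one_le_pow₀ hx.le)
    exact inv_anti₀ hpos (pow_le_pow_right₀ hx.le h3)
  have hvx : A.valuation ((xx k L ^ j)⁻¹) = (A.valuation (xx k L) ^ j)⁻¹ := by
    rw [map_inv₀, map_pow]
  have hvε1 : A.valuation ε ≤ (A.valuation (xx k L) ^ j)⁻¹ := by
    refine hvε.trans ?_
    have hpos : (0 : A.ValueGroup) < A.valuation (xx k L) ^ j :=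
      zero_lt_one.trans_le (one_le_pow₀ hx.le)
    exact inv_anti₀ hpos (pow_le_pow_right₀ hx.le (by omega))
  have hvu1 : A.valuation u ≤ (A.valuation (xx k L) ^ j)⁻¹ := by
    have h1 : u * (1 - 2 * (u * t)) = 2 * ((xx k L ^ j)⁻¹ - ε) := by linear_combination heq
    have h2 : A.valuation (2 * (u * t)) < 1 := by
      rw [map_mul, map_mul]
      calc _ ≤ 1 * (A.valuation u * 1) := by gcongr
        _ = A.valuation u := by rw [one_mul, mul_one]
        _ < 1 := hvu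
    have h3 : A.valuation (1 - 2 * (u * t)) = 1 := Valuation.map_one_sub_of_lt _ h2
    have h4 := congrArg A.valuation h1
    rw [map_mul, h3, mul_one, map_mul] at h4
    rw [h4]
    calc _ ≤ 1 * (A.valuation (xx k L) ^ j)⁻¹ := by
          gcongr
          refine (Valuation.map_sub _ _ _).trans (max_le ?_ ?_)
          · rw [hvx]
          · exact hvε1
      _ = _ := one_mul _
  have hvu2 : A.valuation (u - 2 * (xx k L ^ j)⁻¹) ≤ (A.valuation (xx k L) ^ (2 * j))⁻¹ := by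
    have h1 : u - 2 * (xx k L ^ j)⁻¹ = 2 * (u ^ 2 * t - ε) := by linear_combination heq
    rw [h1, map_mul]
    calc _ ≤ 1 * (A.valuation (xx k L) ^ (2 * j))⁻¹ := by
          gcongr
          refine (Valuation.map_sub _ _ _).trans (max_le ?_ hvε)
          rw [map_mul, map_pow]
          calc _ ≤ ((A.valuation (xx k L) ^ j)⁻¹) ^ 2 * 1 := by gcongr
            _ = (A.valuation (xx k L) ^ (2 * j))⁻¹ := by
              rw [mul_one, inv_pow, ← pow_mul, mul_comm j 2]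
      _ = _ := one_mul _
  -- the constant `c`
  obtain ⟨c, hc⟩ : ∃ c : k, c ^ (r - 1) = κ⁻¹ := IsAlgClosed.exists_pow_nat_eq _ (by omega)
  have hc0 : c ≠ 0 := by
    rintro rfl
    rw [zero_pow (by omega)] at hc
    exact hκ0 (inv_eq_zero.1 hc.symm)
  have hcr : c ^ r = c * κ⁻¹ := by
    rw [← hc, ← pow_succ']; congr 1; omega
  have hcQ : c ^ r ^ 2 = c := by
    have h1 : r ^ 2 = (r - 1) * (2 * (m + 1)) + 1 := by
      have h2 : (r - 1) * (2 * (m + 1)) = 2 * (r - 1) * (m + 1) := by ring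
      rw [h2, hs]
      have : 1 ≤ r ^ 2 := Nat.one_le_pow _ _ (by omega)
      omega
    rw [h1, pow_succ, pow_mul, hc, mul_comm 2 (m + 1), pow_mul, inv_pow, ← hN, hκN]
    norm_num
  refine ⟨c, hc0, hcQ, ?_⟩
  have hcr' : cc k L c ^ r = cc k L c * (cc k L κ)⁻¹ := by
    rw [← map_pow, hcr, map_mul, map_inv₀]
  have hsum := TApx_alg hx0 hz0 hκ1 hcr' (by omega : 1 ≤ r) hjm hK hKu hroot
  have hQ2 : r ^ 2 - 1 + 2 = r ^ 2 + 1 := by
    have : 1 ≤ r ^ 2 := Nat.one_le_pow _ _ (by omega)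
    omega
  rw [hQ2] at hsum
  rw [he, hsum, ValuationSubring.mem_nonunits_iff, Valuation.map_neg, map_mul]
  have hcv : A.valuation (cc k L c) ≤ 1 := (A.valuation_le_one_iff _).2 (hA.1 c)
  have hz1 : A.valuation z ≠ 0 := (Valuation.ne_zero_iff _).2 hz0
  suffices hsuf : A.valuation ((z⁻¹) ^ 2 * (xx k L ^ (r * (m + 1)) * (u - 2 * (xx k L ^ j)⁻¹)) +
      (z⁻¹) ^ 2 * z ^ (r ^ 4 - r ^ 2)) < 1 by
    calc _ ≤ 1 * A.valuation ((z⁻¹) ^ 2 * (xx k L ^ (r * (m + 1)) *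
        (u - 2 * (xx k L ^ j)⁻¹)) + (z⁻¹) ^ 2 * z ^ (r ^ 4 - r ^ 2)) := by gcongr
      _ = _ := one_mul _
      _ < 1 := hsuf
  refine (Valuation.map_add _ _ _).trans_lt (max_lt ?_ ?_)
  · rw [map_mul, map_mul, map_pow, map_pow, map_inv₀]
    refine lt_of_le_of_lt ?_ (TApx_val (V := A.valuation z) (W := A.valuation (xx k L))
      (d := r * (m + 1)) (s := r ^ 2 - 1) (t := 2 * j) hx hz1 hval ?_)
    · gcongr
    · rw [h2j]
      have h1 : r * (m + 1) = 2 * m * m + 3 * m + 1 := by rw [hm]; ring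
      have h2 : r ^ 2 = 4 * m * m + 4 * m + 1 := by rw [hm]; ring
      have h3 : r ^ 2 - 1 = 4 * m * m + 4 * m := by omega
      rw [h3, h1, h2]
      nlinarith [mul_pos (by omega : 0 < m) (by omega : 0 < m), sq_nonneg m]
  · have h1 : 3 ≤ r ^ 4 - r ^ 2 := by
      have e1 : r ^ 4 - r ^ 2 = (r ^ 2 - 1) * r ^ 2 := by
        rw [Nat.sub_mul, one_mul]
        congr 1
        ring
      rw [e1]
      have h9 : 9 ≤ r ^ 2 := by nlinarith
      have : 8 ≤ r ^ 2 - 1 := by omega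
      nlinarith
    have e2 : (z⁻¹) ^ 2 * z ^ (r ^ 4 - r ^ 2) = z ^ (r ^ 4 - r ^ 2 - 2) := by
      have : z ^ (r ^ 4 - r ^ 2) = z ^ (r ^ 4 - r ^ 2 - 2) * z ^ 2 := by
        rw [← pow_add]; congr 1; omega
      rw [this]
      field_simp
    rw [e2, map_pow]
    exact pow_lt_one₀ zero_le hv (by omega)

end MP7b0bad.AdT
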