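import Pool.Agent.Work.MP_7b0bad_ag.AdT.Stmts
import Pool.Agent.Work.MP_7b0bad_ag.SnT.SOrb
import Pool.Agent.Work.MP_7b0bad_ag.SnT.SCharE

/-!
# Block AdT, item TCnt: divisibility of the order of the decomposition group
-/

set_option autoImplicit false

open Polynomial Pointwise

namespace MP7b0bad.AdT

open SnT (cc xx)

theorem TCnt_arith (r N : ℕ) (j : ℤ) (hr : 3 ≤ r) (d : ℕ) (hd : d = r * (r + 1) / 2)
    (h : ((r ^ 4 - r ^ 2 : ℕ) : ℤ) * j = (d : ℤ) * N) : 2 * r * (r - 1) ∣ N := by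
  have h2 : 2 * d = r * (r + 1) := by
    rw [hd]
    exact Nat.mul_div_cancel' (Nat.even_mul_succ_self r).two_dvd
  obtain ⟨s, rfl⟩ : ∃ s, r = s + 1 := ⟨r - 1, by omega⟩
  have h1 : (s + 1) ^ 4 - (s + 1) ^ 2 = 2 * (s + 1) * s * d := by
    have h3 : (s + 1) ^ 4 = 2 * (s + 1) * s * d + (s + 1) ^ 2 := by
      have h4 : 2 * (s + 1) * s * d = (s + 1) * s * (2 * d) := by ring
      rw [h4, h2]
      ring
    omega
  rw [h1] at h
  have hd0 : (d : ℤ) ≠ 0 := by
    have h5 : 0 < d := by nlinarith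
    exact_mod_cast h5.ne'
  have h6 : ((2 * (s + 1) * s : ℕ) : ℤ) * j = N := by
    apply mul_left_cancel₀ hd0
    rw [← h]
    push_cast
    ring
  have h7 : ((2 * (s + 1) * s : ℕ) : ℤ) ∣ (N : ℤ) := ⟨j, h6.symm⟩
  have h8 := Int.natCast_dvd_natCast.1 h7
  simpa using h8

theorem prf_TCnt (hVal : TVal) : TCnt := by
  intro p _ k _ _ _ n hn hp2 L _ _ _ _ A hA y hyV hyA
  have hr3 : 3 ≤ p ^ n := by
    have h1 : 2 ≤ p := (Fact.out : p.Prime).two_le
    have h2 : 3 ≤ p := by omega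
    calc 3 ≤ p := h2
      _ = p ^ 1 := (pow_one p).symm
      _ ≤ p ^ n := Nat.pow_le_pow_right (by omega) hn
  set r : ℕ := p ^ n with hr
  have hX : 1 < A.valuation (xx k L) := F3_X hA
  have hX0 : A.valuation (xx k L) ≠ 0 := (zero_lt_one.trans hX).ne'
  have hy0 : y ≠ 0 := by
    rintro rfl
    exact hyA A.zero_mem
  have hval : A.valuation y ^ (r ^ 4 - r ^ 2) = A.valuation (xx k L) ^ (r * (r + 1) / 2) := by
    rcases hVal k r hr3 L A hA y hyV hy0 with h | h
    · exact absurd (ValuationSubring.nonunits_subset h.1) hyA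
    · exact h.2
  set d : ℕ := r * (r + 1) / 2 with hd
  set m : ℕ := r ^ 4 - r ^ 2 with hm
  have hm1 : 1 ≤ m := by
    have h1 : r ^ 2 < r ^ 4 := Nat.pow_lt_pow_right (by omega) (by norm_num)
    omega
  have hvm : A.valuation y ^ m = A.valuation (xx k L) ^ (d : ℤ) := by
    rw [hval]
    exact (zpow_natCast (A.valuation (xx k L)) d).symm
  have hr' : A.valuation y ^ m =
      A.valuation (algebraMap (RatFunc k) L (RatFunc.X ^ d)) := by
    rw [map_pow, map_pow]
    exact hval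
  let _ : Fintype (A.decompositionSubgroup (RatFunc k)) := Fintype.ofFinite _
  set γ : L := ∏ σ : A.decompositionSubgroup (RatFunc k), (σ : L ≃ₐ[RatFunc k] L) y with hγ
  have hfix : ∀ σ : L ≃ₐ[RatFunc k] L, σ • A = A → σ γ = γ := by
    intro σ hσ
    rw [hγ, map_prod]
    exact Fintype.prod_equiv (Equiv.mulLeft (⟨σ, hσ⟩ : A.decompositionSubgroup (RatFunc k)))
      (fun τ => σ ((τ : L ≃ₐ[RatFunc k] L) y)) (fun τ => (τ : L ≃ₐ[RatFunc k] L) y)
      fun τ => rfl
  have hvσ : ∀ σ : A.decompositionSubgroup (RatFunc k),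
      A.valuation ((σ : L ≃ₐ[RatFunc k] L) y) = A.valuation y := by
    intro σ
    have h1 := SnT.SCharE_w A (σ : L ≃ₐ[RatFunc k] L) σ.2 y hy0 m hm1 _ hr'
    rw [map_div₀] at h1
    exact (div_eq_one_iff_eq ((Valuation.ne_zero_iff _).2 hy0)).1 h1
  have hγv : A.valuation γ = A.valuation y ^ Nat.card (A.decompositionSubgroup (RatFunc k)) := by
    rw [hγ, map_prod, Finset.prod_congr rfl fun σ _ => hvσ σ, Finset.prod_const,
      Finset.card_univ, Nat.card_eq_fintype_card]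
  set N : ℕ := Nat.card (A.decompositionSubgroup (RatFunc k)) with hN
  have hγm : A.valuation γ ^ m = A.valuation (xx k L) ^ ((d : ℤ) * N) := by
    rw [hγv, ← pow_mul, mul_comm, pow_mul, hvm, zpow_mul, zpow_natCast (A.valuation (xx k L) ^ (d : ℤ)) N]
  obtain ⟨j, hj⟩ := SnT.SOrb_val A hA γ hfix m hm1 _ hγm
  rw [hj, ← zpow_natCast, ← zpow_mul] at hγm
  have h2 := SnT.SOrb_inj hX hγm
  exact TCnt_arith r N j hr3 d hd (by rw [mul_comm]; exact h2)

end MP7b0bad.AdT
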