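import Pool.Agent.Work.MP_7b0bad_ag.AdT.Stmts

set_option autoImplicit false

/-!
# Block AdT, item TGrp: subgroups of the Borel subgroup of `SL_2(E)`.  Author: helper82.
-/

open Polynomial Pointwise Matrix

namespace MP7b0bad.AdT

open MT (Bor2 h2 u2 Rz Nz)
open Ad (U2)

theorem TGrp_ext {E : Type} [Field E] {g h : SpecialLinearGroup (Fin 2) E} (e00 : g.1 0 0 = h.1 0 0)
    (e01 : g.1 0 1 = h.1 0 1) (e10 : g.1 1 0 = h.1 1 0) (e11 : g.1 1 1 = h.1 1 1) : g = h := by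
  apply Subtype.ext
  ext i j
  fin_cases i <;> fin_cases j
  exacts [e00, e01, e10, e11]

theorem TGrp_mul {E : Type} [Field E] (g h : SpecialLinearGroup (Fin 2) E) (i j : Fin 2) :
    (g * h).1 i j = g.1 i 0 * h.1 0 j + g.1 i 1 * h.1 1 j := by
  show (g.1 * h.1) i j = _
  rw [Matrix.mul_apply, Fin.sum_univ_two]

/-- conjugation with `diag(β⁻¹, 1)` -/
def TGrp_dg {E : Type} [Field E] (β : E) (hβ : β ≠ 0) :
    SpecialLinearGroup (Fin 2) E ≃* SpecialLinearGroup (Fin 2) E where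
  toFun g := ⟨!![g.1 0 0, β⁻¹ * g.1 0 1; β * g.1 1 0, g.1 1 1], by
    have h := g.2
    rw [Matrix.det_fin_two] at h
    rw [Matrix.det_fin_two_of]
    have e : β⁻¹ * g.1 0 1 * (β * g.1 1 0) = g.1 0 1 * g.1 1 0 := by
      field_simp
    rw [e]
    exact h⟩
  invFun g := ⟨!![g.1 0 0, β * g.1 0 1; β⁻¹ * g.1 1 0, g.1 1 1], by
    have h := g.2
    rw [Matrix.det_fin_two] at h
    rw [Matrix.det_fin_two_of]
    have e : β * g.1 0 1 * (β⁻¹ * g.1 1 0) = g.1 0 1 * g.1 1 0 := by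
      field_simp
    rw [e]
    exact h⟩
  left_inv g := by
    apply TGrp_ext
    · rfl
    · show β * (β⁻¹ * g.1 0 1) = g.1 0 1
      field_simp
    · show β⁻¹ * (β * g.1 1 0) = g.1 1 0
      field_simp
    · rfl
  right_inv g := by
    apply TGrp_ext
    · rfl
    · show β⁻¹ * (β * g.1 0 1) = g.1 0 1
      field_simp
    · show β * (β⁻¹ * g.1 1 0) = g.1 1 0
      field_simp
    · rfl
  map_mul' g h := by
    apply TGrp_ext
    · refine Eq.trans ?_ (TGrp_mul _ _ _ _).symm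
      show (g * h).1 0 0 = g.1 0 0 * h.1 0 0 + β⁻¹ * g.1 0 1 * (β * h.1 1 0)
      rw [TGrp_mul]
      field_simp
    · refine Eq.trans ?_ (TGrp_mul _ _ _ _).symm
      show β⁻¹ * (g * h).1 0 1 = g.1 0 0 * (β⁻¹ * h.1 0 1) + β⁻¹ * g.1 0 1 * h.1 1 1
      rw [TGrp_mul]
      ring
    · refine Eq.trans ?_ (TGrp_mul _ _ _ _).symm
      show β * (g * h).1 1 0 = β * g.1 1 0 * h.1 0 0 + g.1 1 1 * (β * h.1 1 0)
      rw [TGrp_mul]
      ring
    · refine Eq.trans ?_ (TGrp_mul _ _ _ _).symm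
      show (g * h).1 1 1 = β * g.1 1 0 * (β⁻¹ * h.1 0 1) + g.1 1 1 * h.1 1 1
      rw [TGrp_mul]
      field_simp

theorem TGrp_dg_u {E : Type} [Field E] (β : E) (hβ : β ≠ 0) (b : E) :
    TGrp_dg β hβ (u2 b) = u2 (β⁻¹ * b) := by
  apply TGrp_ext
  · rfl
  · rfl
  · show β * 0 = 0
    exact mul_zero _
  · rfl

theorem TGrp_dg_h {E : Type} [Field E] (β : E) (hβ : β ≠ 0) (s : Eˣ) :
    TGrp_dg β hβ (h2 s) = h2 s := by
  apply TGrp_ext
  · rfl
  · show β⁻¹ * 0 = 0
    exact mul_zero _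
  · show β * 0 = 0
    exact mul_zero _
  · rfl

theorem TGrp_uu {E : Type} [Field E] (b c : E) : u2 b * u2 c = u2 (b + c) := by
  apply TGrp_ext <;> rw [TGrp_mul] <;> simp [u2, add_comm]

theorem TGrp_u0 {E : Type} [Field E] : u2 (0 : E) = 1 := by
  apply TGrp_ext <;> simp [u2]

theorem TGrp_ui {E : Type} [Field E] (b : E) : (u2 b)⁻¹ = u2 (-b) := by
  rw [inv_eq_iff_mul_eq_one, TGrp_uu, add_neg_cancel, TGrp_u0]

/-- an upper triangular matrix with `1` in the corner -/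
theorem TGrp_eq_u {E : Type} [Field E] (M : SpecialLinearGroup (Fin 2) E) (h : M ∈ Bor2 E)
    (h1 : M.1 0 0 = 1) : M = u2 (M.1 0 1) := by
  have h10 : M.1 1 0 = 0 := h
  have hd := M.2
  rw [Matrix.det_fin_two, h1, h10, one_mul, mul_zero, sub_zero] at hd
  exact TGrp_ext h1 rfl h10 hd

theorem TGrp_inv00 {E : Type} [Field E] (M : SpecialLinearGroup (Fin 2) E) (h : M ∈ Bor2 E) :
    M.1 0 0 * M.1 1 1 = 1 := by
  have h10 : M.1 1 0 = 0 := h
  have hd := M.2
  rw [Matrix.det_fin_two, h10, mul_zero, sub_zero] at hd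
  exact hd

/-- `t` with `M = u2 t * h2 a * (u2 t)⁻¹` -/
theorem TGrp_conj {E : Type} [Field E] (M : SpecialLinearGroup (Fin 2) E) (h : M ∈ Bor2 E)
    (a : Eˣ) (h1 : M.1 0 0 = a) (ha : (a : E) ^ 2 ≠ 1) : ∃ t : E, u2 t * h2 a * (u2 t)⁻¹ = M := by
  have h10 : M.1 1 0 = 0 := h
  have ha0 : (a : E) ≠ 0 := a.ne_zero
  have h11 : M.1 1 1 = (a : E)⁻¹ := by
    have := TGrp_inv00 M h
    rw [h1] at this
    exact eq_inv_of_mul_eq_one_right this
  have hne : (a : E)⁻¹ - a ≠ 0 := by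
    intro h0
    apply ha
    have h2 : (a : E)⁻¹ = a := sub_eq_zero.1 h0
    rw [pow_two]
    nth_rw 1 [← h2]
    exact inv_mul_cancel₀ ha0
  refine ⟨M.1 0 1 / ((a : E)⁻¹ - a), ?_⟩
  rw [mul_inv_eq_iff_eq_mul]
  set t := M.1 0 1 / ((a : E)⁻¹ - a) with ht
  have ht' : t * ((a : E)⁻¹ - a) = M.1 0 1 := div_mul_cancel₀ _ hne
  apply TGrp_ext
  · rw [TGrp_mul, TGrp_mul, h1]
    simp [u2, h2]
  · rw [TGrp_mul, TGrp_mul, h1, ← ht']
    simp [u2, h2]
    ring
  · rw [TGrp_mul, TGrp_mul, h10, h11]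
    simp [u2, h2]
  · rw [TGrp_mul, TGrp_mul, h10, h11]
    simp [u2, h2]

theorem TGrp_map_u {F E : Type} [Field F] [Field E] (j : F →+* E) (c : F) :
    SpecialLinearGroup.map j (u2 c) = u2 (j c) := by
  apply TGrp_ext
  · exact map_one j
  · rfl
  · exact map_zero j
  · exact map_one j

/-- the elements with `x^|F| = x` -/
theorem TGrp_fix {F E : Type} [Field F] [Finite F] [Field E] [Finite E] (j : F →+* E) (x : E)
    (hx : x ^ Nat.card F = x) : ∃ c : F, j c = x := by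
  classical
  have hF : Fintype F := Fintype.ofFinite F
  have hE : Fintype E := Fintype.ofFinite E
  have hr : 1 < Nat.card F := Finite.one_lt_card
  set q : E[X] := X ^ Nat.card F - X with hq
  have hq0 : q ≠ 0 := FiniteField.X_pow_card_sub_X_ne_zero E hr
  have hdeg : q.natDegree = Nat.card F := FiniteField.X_pow_card_sub_X_natDegree_eq E hr
  have h1 : (Finset.univ.image j) ⊆ q.roots.toFinset := by
    intro y hy
    obtain ⟨c, -, rfl⟩ := Finset.mem_image.1 hy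
    rw [Multiset.mem_toFinset, mem_roots hq0, IsRoot.def, hq]
    simp only [eval_sub, eval_pow, eval_X]
    rw [← map_pow, Nat.card_eq_fintype_card, FiniteField.pow_card, sub_self]
  have h2 : q.roots.toFinset.card ≤ (Finset.univ.image j).card := by
    rw [Finset.card_image_of_injective _ j.injective, Finset.card_univ, ← Nat.card_eq_fintype_card,
      ← hdeg]
    exact (Multiset.toFinset_card_le _).trans (card_roots' q)
  have h3 := Finset.eq_of_subset_of_card_le h1 h2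
  have h4 : x ∈ q.roots.toFinset := by
    rw [Multiset.mem_toFinset, mem_roots hq0, IsRoot.def, hq]
    simp only [eval_sub, eval_pow, eval_X]
    rw [hx, sub_self]
  rw [← h3] at h4
  obtain ⟨c, -, hc⟩ := Finset.mem_image.1 h4
  exact ⟨c, hc⟩

/-- the elements with `x^(orderOf a) = 1` -/
theorem TGrp_cyc {E : Type} [Field E] [Finite E] (a x : Eˣ) (hx : x ^ orderOf a = 1) :
    x ∈ Subgroup.zpowers a := by
  classical
  have hE : Fintype E := Fintype.ofFinite E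
  have h1 : (Finset.univ.filter (fun y : Eˣ => y ∈ Subgroup.zpowers a)) ⊆
      Finset.univ.filter (fun y : Eˣ => y ^ orderOf a = 1) := by
    intro y hy
    rw [Finset.mem_filter] at hy ⊢
    refine ⟨hy.1, ?_⟩
    obtain ⟨m, rfl⟩ := Subgroup.mem_zpowers_iff.1 hy.2
    rw [← zpow_natCast, ← _root_.zpow_mul, mul_comm, _root_.zpow_mul, zpow_natCast,
      pow_orderOf_eq_one, _root_.one_zpow]
  have h2 : (Finset.univ.filter (fun y : Eˣ => y ^ orderOf a = 1)).card ≤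
      (Finset.univ.filter (fun y : Eˣ => y ∈ Subgroup.zpowers a)).card := by
    refine (IsCyclic.card_pow_eq_one_le (orderOf_pos a)).trans ?_
    rw [← Nat.card_zpowers, Nat.card_eq_fintype_card, Fintype.card_subtype]
  have h3 := Finset.eq_of_subset_of_card_le h1 h2
  have h4 : x ∈ Finset.univ.filter (fun y : Eˣ => y ^ orderOf a = 1) :=
    Finset.mem_filter.2 ⟨Finset.mem_univ _, hx⟩
  rw [← h3] at h4
  exact (Finset.mem_filter.1 h4).2

/-- the corner as a homomorphism -/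
def TGrp_chi {E : Type} [Field E] (D : Subgroup (SpecialLinearGroup (Fin 2) E)) (hD : D ≤ Bor2 E) :
    D →* E where
  toFun M := M.1.1 0 0
  map_one' := by
    show (1 : Matrix (Fin 2) (Fin 2) E) 0 0 = 1
    simp
  map_mul' M N := by
    have h : (N : SpecialLinearGroup (Fin 2) E).1 1 0 = 0 := hD N.2
    show ((M : SpecialLinearGroup (Fin 2) E) * (N : SpecialLinearGroup (Fin 2) E)).1 0 0 = _
    rw [TGrp_mul, h, mul_zero, add_zero]

/-- group theory -/
theorem prf_TGrp : TGrp := by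
  intro p _ F E _ _ _ _ _ j a D β hp2 hcard ha hD hβ h1 h2' h3
  classical
  set r := Nat.card F with hr
  have hr1 : 1 < r := Finite.one_lt_card
  -- `r` is odd, so `r ≥ 3`
  have hr2 : r ≠ 2 := by
    intro h0
    have hF : Fintype F := Fintype.ofFinite F
    have hEt : Fintype E := Fintype.ofFinite E
    have hp1 : p.Prime := Fact.out
    have h4 : Nat.card E = 2 ^ 2 := by rw [hcard, h0]
    have h5 : ((Fintype.card E : ℕ) : E) = 0 := Nat.cast_card_eq_zero E
    rw [← Nat.card_eq_fintype_card, h4] at h5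
    have h6 : p ∣ 2 ^ 2 := (CharP.cast_eq_zero_iff E p _).1 h5
    exact hp2 ((Nat.prime_dvd_prime_iff_eq hp1 Nat.prime_two).1 (hp1.dvd_of_dvd_pow h6))
  have ha2 : (a : E) ^ 2 ≠ 1 := by
    intro h0
    have h4 : a ^ 2 = 1 := by
      apply Units.ext
      rw [Units.val_pow_eq_pow_val, h0, Units.val_one]
    have h5 := Nat.le_of_dvd (by norm_num) (orderOf_dvd_of_pow_eq_one h4)
    rw [ha] at h5
    omega
  set χ : D →* Eˣ := (TGrp_chi D hD).toHomUnits with hχ
  have hχv : ∀ M : D, ((χ M : Eˣ) : E) = M.1.1 0 0 := fun M => rfl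
  -- the range
  have hrange : χ.range ≤ Subgroup.zpowers a := by
    rintro _ ⟨M, rfl⟩
    apply TGrp_cyc
    apply Units.ext
    rw [ha, Units.val_pow_eq_pow_val, hχv, Units.val_one]
    exact h1 _ M.2
  have hcr : Nat.card χ.range ≤ 2 * (r - 1) := by
    rw [← ha, ← Nat.card_zpowers]
    exact Nat.card_mono (Set.toFinite _) hrange
  -- the kernel
  have hker : ∀ M : χ.ker, ∃ c : F, j c = M.1.1.1 0 1 / β := by
    intro M
    apply TGrp_fix
    apply h2' _ M.1.2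
    have h4 : χ M.1 = 1 := M.2
    rw [← hχv, h4, Units.val_one]
  choose kf hkf using hker
  have hkfi : Function.Injective kf := by
    intro M N h
    have h4 : M.1.1.1 0 1 / β = N.1.1.1 0 1 / β := by rw [← hkf, ← hkf, h]
    have h5 : M.1.1.1 0 1 = N.1.1.1 0 1 := (div_left_inj' hβ).1 h4
    have hM1 : M.1.1.1 0 0 = 1 := by
      have h4 : χ M.1 = 1 := M.2
      rw [← hχv, h4, Units.val_one]
    have hN1 : N.1.1.1 0 0 = 1 := by
      have h4 : χ N.1 = 1 := N.2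
      rw [← hχv, h4, Units.val_one]
    apply Subtype.ext
    apply Subtype.ext
    rw [TGrp_eq_u M.1.1 (hD M.1.2) hM1, TGrp_eq_u N.1.1 (hD N.1.2) hN1, h5]
  have hck : Nat.card χ.ker ≤ r := Nat.card_le_card_of_injective kf hkfi
  have hprod : Nat.card χ.ker * Nat.card χ.range = Nat.card D := by
    rw [← Subgroup.index_ker]
    exact Subgroup.card_mul_index _
  have hDle : 2 * r * (r - 1) ≤ Nat.card D := Nat.le_of_dvd Nat.card_pos h3
  have hrpos : 0 < r - 1 := by omega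
  have hke : Nat.card χ.ker = r := by
    by_contra hne
    have h4 : Nat.card χ.ker < r := lt_of_le_of_ne hck hne
    have h5 : Nat.card χ.ker * Nat.card χ.range < r * (2 * (r - 1)) := by
      calc Nat.card χ.ker * Nat.card χ.range ≤ Nat.card χ.ker * (2 * (r - 1)) :=
            Nat.mul_le_mul_left _ hcr
        _ < r * (2 * (r - 1)) := Nat.mul_lt_mul_of_pos_right h4 (by omega)
    rw [hprod] at h5
    have h6 : 2 * r * (r - 1) = r * (2 * (r - 1)) := by ring
    omega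
  have hre : Nat.card χ.range = 2 * (r - 1) := by
    by_contra hne
    have h4 : Nat.card χ.range < 2 * (r - 1) := lt_of_le_of_ne hcr hne
    have h5 : Nat.card χ.ker * Nat.card χ.range < r * (2 * (r - 1)) := by
      rw [hke]
      exact Nat.mul_lt_mul_of_pos_left h4 (by omega)
    rw [hprod] at h5
    have h6 : 2 * r * (r - 1) = r * (2 * (r - 1)) := by ring
    omega
  have hbij : Function.Bijective kf := by
    rw [Nat.bijective_iff_injective_and_card]
    exact ⟨hkfi, hke⟩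
  have hU : ∀ c : F, u2 (β * j c) ∈ D := by
    intro c
    obtain ⟨M, hM⟩ := hbij.2 c
    have h4 := hkf M
    rw [hM] at h4
    have hM1 : M.1.1.1 0 0 = 1 := by
      have h4 : χ M.1 = 1 := M.2
      rw [← hχv, h4, Units.val_one]
    have h5 : β * j c = M.1.1.1 0 1 := by
      rw [h4, mul_div_cancel₀ _ hβ]
    rw [h5, ← TGrp_eq_u M.1.1 (hD M.1.2) hM1]
    exact M.1.2
  have hreq : χ.range = Subgroup.zpowers a := by
    apply Subgroup.eq_of_le_of_card_ge hrange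
    rw [Nat.card_zpowers, ha, hre]
  obtain ⟨M₀, hM₀⟩ : a ∈ χ.range := by
    rw [hreq]
    exact Subgroup.mem_zpowers a
  have hM₀a : M₀.1.1 0 0 = a := by rw [← hχv, hM₀]
  obtain ⟨t, ht⟩ := TGrp_conj M₀.1 (hD M₀.2) a hM₀a ha2
  set φ : SpecialLinearGroup (Fin 2) E ≃* SpecialLinearGroup (Fin 2) E :=
    (MulAut.conj (u2 t)⁻¹).trans (TGrp_dg β hβ) with hφ
  have hφa : ∀ g, φ g = TGrp_dg β hβ ((u2 t)⁻¹ * g * u2 t) := by
    intro g
    show TGrp_dg β hβ ((u2 t)⁻¹ * g * ((u2 t)⁻¹)⁻¹) = _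
    rw [inv_inv]
  have hφu : ∀ b, φ (u2 b) = u2 (β⁻¹ * b) := by
    intro b
    rw [hφa, TGrp_ui, TGrp_uu, TGrp_uu, TGrp_dg_u]
    congr 1
    ring
  have hφM : φ M₀.1 = h2 a := by
    rw [hφa, ← ht]
    have e : (u2 t)⁻¹ * (u2 t * h2 a * (u2 t)⁻¹) * u2 t = h2 a := by group
    rw [e, TGrp_dg_h]
  refine ⟨φ, le_antisymm ?_ ?_⟩
  · rintro _ ⟨M, hM, rfl⟩
    have h4 : χ ⟨M, hM⟩ ∈ Subgroup.zpowers a := hrange ⟨_, rfl⟩
    obtain ⟨m, hm⟩ := Subgroup.mem_zpowers_iff.1 h4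
    set N : D := ⟨M, hM⟩ * (M₀ ^ m)⁻¹ with hN
    have hN1 : χ N = 1 := by
      rw [hN, map_mul, map_inv, map_zpow, hM₀, hm, mul_inv_cancel]
    obtain ⟨c, hc⟩ : ∃ c : F, j c = N.1.1 0 1 / β := ⟨kf ⟨N, hN1⟩, hkf ⟨N, hN1⟩⟩
    have hN00 : N.1.1 0 0 = 1 := by rw [← hχv, hN1, Units.val_one]
    have hNu : N.1 = u2 (β * j c) := by
      rw [hc, mul_div_cancel₀ _ hβ]
      exact TGrp_eq_u N.1 (hD N.2) hN00
    have hMN : M = N.1 * M₀.1 ^ m := by
      have h5 : (N.1 : SpecialLinearGroup (Fin 2) E) = M * (M₀.1 ^ m)⁻¹ := rfl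
      rw [h5, inv_mul_cancel_right]
    show φ M ∈ _
    rw [hMN, map_mul, map_zpow, hφM, hNu, hφu, inv_mul_cancel_left₀ hβ]
    apply Subgroup.mul_mem_sup
    · exact ⟨u2 c, ⟨c, rfl⟩, TGrp_map_u j c⟩
    · exact Subgroup.zpow_mem _ (Subgroup.mem_zpowers _) m
  · apply sup_le
    · rintro _ ⟨_, ⟨c, rfl⟩, rfl⟩
      refine ⟨u2 (β * j c), hU c, ?_⟩
      show φ (u2 (β * j c)) = SpecialLinearGroup.map j (u2 c)
      rw [hφu, inv_mul_cancel_left₀ hβ, TGrp_map_u]
    · rw [Subgroup.zpowers_le]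
      exact ⟨M₀.1, M₀.2, hφM⟩

end MP7b0bad.AdT
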