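import Pool.Agent.Work.MP_7b0bad_ag.AdT.Stmts
import Pool.Agent.Work.MP_7b0bad_ag.SnT.Main
import Pool.Agent.Work.MP_7b0bad_ag.Bd.B05

set_option autoImplicit false

/-!
# Block AdT, item TKap (helper36): the residue of `z ^ (-2 (r - 1)) x ^ (-r)`
-/

open Polynomial Pointwise

namespace MP7b0bad.AdT

open SnT (cc xx)

/-- the algebraic identity: `K ^ N = -(g + z ^ (Q ^ 2 - Q)) x ^ (-d)` -/
theorem TKap_alg {L : Type} [Field L] {x z : L} {r N d e s Q : ℕ} (hx : x ≠ 0) (hz : z ≠ 0)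
    (h1 : 2 * (r - 1) * N = s) (h2 : r * N = d) (he : e ≤ d)
    (hroot : z ^ (s + Q) + (x ^ d - x ^ e) * z ^ s + 1 = 0) :
    ((z ^ (2 * (r - 1)) * x ^ r)⁻¹) ^ N = -1 + (x ^ (d - e))⁻¹ - z ^ Q * (x ^ d)⁻¹ := by
  have hxd : x ^ d ≠ 0 := pow_ne_zero _ hx
  have hzs : z ^ s ≠ 0 := pow_ne_zero _ hz
  have hxe : x ^ e ≠ 0 := pow_ne_zero _ hx
  have hxde : x ^ (d - e) ≠ 0 := pow_ne_zero _ hx
  have e1 : ((z ^ (2 * (r - 1)) * x ^ r)⁻¹) ^ N = (z ^ s * x ^ d)⁻¹ := by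
    rw [inv_pow, mul_pow, ← pow_mul, ← pow_mul, h1, h2]
  have e2 : x ^ d = x ^ (d - e) * x ^ e := by
    rw [← pow_add]; congr 1; omega
  have e3 : (x ^ (d - e))⁻¹ = x ^ e * (x ^ d)⁻¹ := by
    rw [e2, mul_inv]
    field_simp
  have e4 : (z ^ s)⁻¹ = -(x ^ d - x ^ e + z ^ Q) := by
    apply inv_eq_of_mul_eq_one_right
    rw [pow_add] at hroot
    linear_combination -hroot
  rw [e1, e3, mul_inv, e4]
  have e5 : x ^ d * (x ^ d)⁻¹ = 1 := mul_inv_cancel₀ hxd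
  linear_combination (-1 : L) * e5

theorem TKap_pow {L : Type} [Field L] (A : ValuationSubring L) {K c : L} (hK : K ∈ A) (hc : c ∈ A)
    (h : K - c ∈ A.nonunits) (N : ℕ) : K ^ N - c ^ N ∈ A.nonunits := by
  rw [ValuationSubring.mem_nonunits_iff] at h ⊢
  rw [← geom_sum₂_mul, map_mul]
  have h1 : A.valuation (∑ i ∈ Finset.range N, K ^ i * c ^ (N - 1 - i)) ≤ 1 := by
    rw [A.valuation_le_one_iff]
    exact sum_mem fun i _ => mul_mem (pow_mem hK _) (pow_mem hc _)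
  calc _ ≤ 1 * A.valuation (K - c) := by gcongr
    _ = A.valuation (K - c) := one_mul _
    _ < 1 := h

theorem prf_TKap (hVal : TVal) : TKap := by
  intro p _ k _ _ _ n hn hp L _ _ _ _ A hA z hz hz0 hzn
  obtain ⟨r, hr⟩ : ∃ r, r = p ^ n := ⟨_, rfl⟩
  rw [← hr] at hz ⊢
  have hp2 : Odd p := (Fact.out : p.Prime).odd_of_ne_two hp
  have hr2 : Odd r := hr ▸ hp2.pow
  have hp3 : 3 ≤ p := by
    have := (Fact.out : p.Prime).two_le
    omega
  have hr3 : 3 ≤ r := by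
    rw [hr]
    exact hp3.trans (Nat.le_self_pow hn.ne' p)
  obtain ⟨m, hm⟩ := hr2
  have hm1 : 1 ≤ m := by omega
  have hv : A.valuation z < 1 := (ValuationSubring.mem_nonunits_iff A).1 hzn
  have hx : 1 < A.valuation (xx k L) := by
    have h := hA.2
    rw [← A.valuation_le_one_iff, not_le] at h
    exact h
  have hx0 : xx k L ≠ 0 := by
    intro h
    rw [h, map_zero] at hx
    exact absurd hx (not_lt.2 zero_le_one)
  have hN : (r + 1) / 2 = m + 1 := by omega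
  have hrr : r * (r + 1) / 2 = r * (m + 1) := by
    rw [hm]
    have : (2 * m + 1) * (2 * m + 1 + 1) = 2 * ((2 * m + 1) * (m + 1)) := by ring
    rw [this, Nat.mul_div_cancel_left _ (by norm_num)]
  have he : (r - 1) / 2 = m := by omega
  have hs : 2 * (r - 1) * (m + 1) = r ^ 2 - 1 := by
    have h1 : r - 1 = 2 * m := by omega
    rw [h1, hm]
    have : (2 * m + 1) ^ 2 = 2 * (2 * m) * (m + 1) + 1 := by ring
    omega
  have hd0 : m < r * (m + 1) := by nlinarith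
  -- the value
  have hval : A.valuation z ^ (r ^ 2 - 1) * A.valuation (xx k L) ^ (r * (r + 1) / 2) = 1 := by
    rcases hVal k r hr3 L A hA z hz hz0 with h | h
    · exact h.2
    · exact absurd ((A.valuation_le_one_iff _).1 hv.le) h.1
  rw [hrr] at hval
  set K : L := (z ^ (2 * (r - 1)) * xx k L ^ r)⁻¹ with hK
  have hKN : A.valuation K ^ (m + 1) = 1 := by
    rw [hK, map_inv₀, map_mul, map_pow, map_pow, inv_pow, mul_pow, ← pow_mul, ← pow_mul, hs, hval,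
      inv_one]
  have hK1 : A.valuation K = 1 := (pow_eq_one_iff.1 hKN).resolve_right (Nat.succ_ne_zero m)
  have hKA : K ∈ A := (A.valuation_le_one_iff _).1 hK1.le
  obtain ⟨κ, hκ⟩ := prf_F6 prf_F3 k L A hA K hKA
  refine ⟨κ, ?_, ?_, hκ⟩
  · rintro rfl
    rw [map_zero, map_zero, sub_zero, ValuationSubring.mem_nonunits_iff, hK1] at hκ
    exact lt_irrefl _ hκ
  · rw [hN]
    have hcA : cc k L κ ∈ A := hA.1 κ
    have h1 : K ^ (m + 1) - cc k L (κ ^ (m + 1)) ∈ A.nonunits := by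
      rw [map_pow]
      exact TKap_pow A hKA hcA hκ (m + 1)
    have hroot : z ^ (r ^ 2 - 1 + (r ^ 4 - r ^ 2)) +
        (xx k L ^ (r * (m + 1)) - xx k L ^ m) * z ^ (r ^ 2 - 1) + 1 = 0 := by
      have h3 : z ^ (r ^ 4) + gx r (xx k L) * z ^ (r ^ 2) + z = 0 := hz
      rw [gx, hrr, he] at h3
      have h4 : 1 ≤ r ^ 2 := Nat.one_le_pow _ _ (by omega)
      have h5 : r ^ 2 ≤ r ^ 4 := Nat.pow_le_pow_right (by omega) (by norm_num)
      have e1 : z ^ (r ^ 4) = z ^ (r ^ 2 - 1 + (r ^ 4 - r ^ 2)) * z := by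
        rw [← pow_succ]; congr 1; omega
      have e2 : z ^ (r ^ 2) = z ^ (r ^ 2 - 1) * z := by
        rw [← pow_succ]; congr 1; omega
      rw [e1, e2] at h3
      have h6 : z * (z ^ (r ^ 2 - 1 + (r ^ 4 - r ^ 2)) +
        (xx k L ^ (r * (m + 1)) - xx k L ^ m) * z ^ (r ^ 2 - 1) + 1) = 0 := by
        linear_combination h3
      exact (mul_eq_zero.1 h6).resolve_left hz0
    have halg := TKap_alg (N := m + 1) hx0 hz0 hs rfl hd0.le hroot
    rw [← hK] at halg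
    have h2 : K ^ (m + 1) - cc k L (-1) ∈ A.nonunits := by
      rw [halg, map_neg, map_one]
      have e : -1 + (xx k L ^ (r * (m + 1) - m))⁻¹ - z ^ (r ^ 4 - r ^ 2) *
          (xx k L ^ (r * (m + 1)))⁻¹ - -1 = (xx k L ^ (r * (m + 1) - m))⁻¹ -
            z ^ (r ^ 4 - r ^ 2) * (xx k L ^ (r * (m + 1)))⁻¹ := by ring
      rw [e, ValuationSubring.mem_nonunits_iff]
      refine lt_of_le_of_lt (Valuation.map_sub _ _ _) (max_lt ?_ ?_)
      · rw [map_inv₀, map_pow]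
        exact inv_lt_one_of_one_lt₀ (one_lt_pow₀ hx (by omega))
      · rw [map_mul, map_inv₀, map_pow, map_pow]
        have h7 : A.valuation z ^ (r ^ 4 - r ^ 2) ≤ 1 := pow_le_one₀ zero_le hv.le
        have h8 : (A.valuation (xx k L) ^ (r * (m + 1)))⁻¹ < 1 :=
          inv_lt_one_of_one_lt₀ (one_lt_pow₀ hx (by omega))
        calc _ ≤ 1 * (A.valuation (xx k L) ^ (r * (m + 1)))⁻¹ := by gcongr
          _ = (A.valuation (xx k L) ^ (r * (m + 1)))⁻¹ := one_mul _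
          _ < 1 := h8
    exact SnT.Main_dis hA h1 h2

end MP7b0bad.AdT
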