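import Pool.Agent.Work.MP_7b0bad_ag.AdT.Stmts
import Pool.Agent.Work.MP_7b0bad_ag.MT.ANax

set_option autoImplicit false

/-!
# Block AdT, item TLoc: the local groups for all tame generators with square in a subfield
-/

open Polynomial Pointwise Matrix

namespace MP7b0bad.AdT

open SnT (cc xx)
open MT (Bor2 h2 u2 Rz Nz)
open Ad (U2)

/-- the diagonal matrices -/
def TLoc_hom (F : Type) [Field F] : Fˣ →* Matrix.SpecialLinearGroup (Fin 2) F where
  toFun := h2
  map_one' := by
    refine Subtype.ext ?_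
    ext i j
    fin_cases i <;> fin_cases j <;> simp [h2]
  map_mul' s t := by
    refine Subtype.ext ?_
    ext i j
    fin_cases i <;> fin_cases j <;>
      simp [h2, Matrix.mul_apply, Fin.sum_univ_two, mul_comm]

theorem TLoc_pow {F : Type} [Field F] (s : Fˣ) (m : ℕ) : h2 s ^ m = h2 (s ^ m) :=
  (map_pow (TLoc_hom F) s m).symm

theorem TLoc_order {F : Type} [Field F] (s : Fˣ) : orderOf (h2 s) = orderOf s := by
  have hinj : Function.Injective (TLoc_hom F) := by
    intro a b h
    have h1 := congrArg (fun M : SpecialLinearGroup (Fin 2) F => M.1 0 0) h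
    have h3 : (a : F) = (b : F) := h1
    exact Units.ext h3
  exact orderOf_injective (TLoc_hom F) hinj s

theorem TLoc_conj {F : Type} [Field F] (s : Fˣ) (b : F) :
    h2 s * u2 b * (h2 s)⁻¹ = u2 ((s : F) ^ 2 * b) := by
  rw [mul_inv_eq_iff_eq_mul]
  refine Subtype.ext ?_
  ext i j
  fin_cases i <;> fin_cases j <;>
    simp [h2, u2, Matrix.mul_apply, Fin.sum_univ_two, sq, mul_assoc, mul_comm]

theorem TLoc_map_h2 {E F : Type} [Field E] [Field F] (f : E →+* F) (s : Eˣ) :
    SpecialLinearGroup.map f (h2 s) = h2 (Units.map (f : E →* F) s) := by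
  refine Subtype.ext ?_
  ext i j
  fin_cases i <;> fin_cases j <;> simp [h2]

theorem TLoc_map_u2 {E F : Type} [Field E] [Field F] (f : E →+* F) (b : E) :
    SpecialLinearGroup.map f (u2 b) = u2 (f b) := by
  refine Subtype.ext ?_
  ext i j
  fin_cases i <;> fin_cases j <;> simp [u2]

theorem TLoc_fld {p : ℕ} [Fact p.Prime] {F : Type} [Field F] [Finite F] [CharP F p]
    (F' : Subfield F) (s : Fˣ) (hp2 : p ≠ 2) (hs : (s : F) ^ 2 ∈ F') (hsF : (s : F) ∉ F') :
    ∃ (E : Type) (_ : Field E) (_ : Finite E) (_ : CharP E p) (j : F' →+* E) (ι : E →+* F)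
      (a : Eˣ) (m : ℕ), (∀ x : F', ι (j x) = (x : F)) ∧ Nat.card E = Nat.card F' ^ 2 ∧
      orderOf a = 2 * (Nat.card F' - 1) ∧ (∃ w : F', j w = (a : E) ^ 2) ∧
      ι ((a : E) ^ m) = (s : F) := by
  have hpp : p.Prime := Fact.out
  have hch : CharP F' p := (RingHom.charP_iff F'.subtype F'.subtype_injective p).2 inferInstance
  have hint : IsIntegral F' (s : F) := Algebra.IsIntegral.isIntegral _
  -- the degree is two
  have hnr : (s : F) ∉ (algebraMap F' F).range := by
    rintro ⟨x, hx⟩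
    exact hsF (hx ▸ x.2)
  have hdeg2 : 2 ≤ (minpoly F' (s : F)).natDegree := (minpoly.two_le_natDegree_iff hint).2 hnr
  have hdeg1 : (minpoly F' (s : F)).natDegree ≤ 2 := by
    have h1 : (minpoly F' (s : F)) ∣ X ^ 2 - C (⟨(s : F) ^ 2, hs⟩ : F') := by
      refine minpoly.dvd F' (s : F) ?_
      rw [map_sub, map_pow, aeval_X, aeval_C]
      exact sub_self _
    have h2 : (X ^ 2 - C (⟨(s : F) ^ 2, hs⟩ : F')) ≠ 0 := X_pow_sub_C_ne_zero (by norm_num) _
    refine (natDegree_le_of_dvd h1 h2).trans ?_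
    rw [natDegree_X_pow_sub_C]
  have hdeg : (minpoly F' (s : F)).natDegree = 2 := le_antisymm hdeg1 hdeg2
  let E := IntermediateField.adjoin F' {(s : F)}
  have hfr : Module.finrank F' E = 2 := by
    rw [IntermediateField.adjoin.finrank hint, hdeg]
  have hcard : Nat.card E = Nat.card F' ^ 2 := by
    have := Fintype.ofFinite F'
    have := Fintype.ofFinite E
    rw [Nat.card_eq_fintype_card, Nat.card_eq_fintype_card, Module.card_eq_pow_finrank (K := F'),
      hfr]
  have hsE : (s : F) ∈ E := IntermediateField.mem_adjoin_simple_self F' (s : F)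
  -- the generator of the multiplicative group of the subfield
  obtain ⟨w, hw⟩ := IsCyclic.exists_generator (α := F'ˣ)
  have hs2 : (⟨(s : F) ^ 2, hs⟩ : F') ≠ 0 := fun h =>
    pow_ne_zero 2 s.ne_zero (congrArg Subtype.val h)
  obtain ⟨i, hi⟩ := (mem_powers_iff_mem_zpowers (x := w) (y := Units.mk0 _ hs2)).2 (hw _)
  have hi' : ((w ^ i : F'ˣ) : F') = ⟨(s : F) ^ 2, hs⟩ := congrArg Units.val hi
  have hi2 : ((w : F') : F) ^ i = (s : F) ^ 2 := by
    have := congrArg (fun x : F' => (x : F)) hi'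
    simpa using this
  have hwF : ((w : F') : F) ≠ 0 := fun h => w.ne_zero (Subtype.ext h)
  have hiodd : ¬ Even i := by
    rintro ⟨l, hl⟩
    have h1 : (s : F) ^ 2 = (((w : F') : F) ^ l) ^ 2 := by
      rw [← hi2, hl, ← pow_mul]
      congr 1
      ring
    rcases sq_eq_sq_iff_eq_or_eq_neg.1 h1 with h | h
    · exact hsF (h ▸ F'.pow_mem (w : F').2 l)
    · exact hsF (h ▸ F'.neg_mem (F'.pow_mem (w : F').2 l))
  obtain ⟨l, hl⟩ := Nat.not_even_iff_odd.1 hiodd
  have hchE : CharP E p := (RingHom.charP_iff (algebraMap E F) (algebraMap E F).injective p).2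
    inferInstance
  let j : F' →+* E := algebraMap F' E
  let ι : E →+* F := algebraMap E F
  have hij : ∀ x : F', ι (j x) = (x : F) := fun x => rfl
  have hjw : ((j (w : F') : E)) ≠ 0 := by
    intro h
    exact w.ne_zero (j.injective (by rw [h, map_zero]))
  let a0 : E := ⟨(s : F), hsE⟩ * ((j (w : F')) ^ l)⁻¹
  have hs0 : (⟨(s : F), hsE⟩ : E) ≠ 0 := fun h => s.ne_zero (congrArg Subtype.val h)
  have ha0 : a0 ≠ 0 := mul_ne_zero hs0 (inv_ne_zero (pow_ne_zero l hjw))
  have hsq : a0 ^ 2 = j (w : F') := by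
    have h1 : (⟨(s : F), hsE⟩ : E) ^ 2 = (j (w : F')) ^ i := by
      apply Subtype.ext
      exact hi2.symm
    change (⟨(s : F), hsE⟩ * ((j (w : F')) ^ l)⁻¹) ^ 2 = _
    rw [mul_pow, h1, hl, inv_pow, ← pow_mul, pow_succ, mul_comm l 2]
    field_simp
  let a : Eˣ := Units.mk0 a0 ha0
  have hasq : a ^ 2 = Units.map (j : F' →* E) w := by
    apply Units.ext
    exact hsq
  have how : orderOf w = Nat.card F' - 1 := by
    have h1 : orderOf w = Nat.card F'ˣ := orderOf_eq_card_of_forall_mem_zpowers hw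
    rw [h1, Nat.card_units]
  have hoa : orderOf (a ^ 2) = Nat.card F' - 1 := by
    rw [hasq, ← how]
    exact orderOf_injective (Units.map (j : F' →* E)) (Units.map_injective j.injective) w
  have hodd : Odd (Nat.card F') := by
    have := Fintype.ofFinite F'
    obtain ⟨n, -, hn⟩ := FiniteField.card F' p
    rw [Nat.card_eq_fintype_card, hn]
    exact (hpp.odd_of_ne_two hp2).pow
  have hr1 : 1 < Nat.card F' := Finite.one_lt_card
  have horder : orderOf a = 2 * (Nat.card F' - 1) := by
    have h1 := orderOf_pow (n := 2) a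
    rw [hoa] at h1
    have hN : 0 < orderOf a := orderOf_pos a
    obtain ⟨t, ht⟩ := hodd
    have h2 : (orderOf a).gcd 2 = 1 ∨ (orderOf a).gcd 2 = 2 :=
      (Nat.dvd_prime Nat.prime_two).1 (Nat.gcd_dvd_right _ _)
    rcases h2 with h2 | h2
    · rw [h2, Nat.div_one] at h1
      exfalso
      have h3 : 2 ∣ orderOf a := ⟨t, by omega⟩
      have h4 : 2 ∣ (orderOf a).gcd 2 := Nat.dvd_gcd h3 (dvd_refl 2)
      omega
    · rw [h2] at h1
      have h3 : 2 ∣ orderOf a := by
        have := Nat.gcd_dvd_left (orderOf a) 2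
        rwa [h2] at this
      omega
  refine ⟨E, inferInstance, inferInstance, hchE, j, ι, a, i, hij, hcard, horder, ⟨w, hsq.symm⟩, ?_⟩
  have h5 : (a : E) ^ i = ⟨(s : F), hsE⟩ := by
    change a0 ^ i = _
    rw [hl, pow_succ, pow_mul, hsq]
    change (j (w : F')) ^ l * (⟨(s : F), hsE⟩ * ((j (w : F')) ^ l)⁻¹) = _
    rw [mul_comm, mul_assoc, inv_mul_cancel₀ (pow_ne_zero l hjw), mul_one]
  rw [h5]
  rfl

theorem prf_TLoc (hLRz : Ad.LRz) (hSeed : TSeed) : TLoc := by
  intro p _ k _ _ _ F _ _ _ F' s hp2 hs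
  have hpp : p.Prime := Fact.out
  have hch : CharP F' p := (RingHom.charP_iff F'.subtype F'.subtype_injective p).2 inferInstance
  by_cases hsF : (s : F) ∈ F'
  · -- the tame generator is in the subfield
    have hs0 : (⟨(s : F), hsF⟩ : F') ≠ 0 := fun h => s.ne_zero (congrArg Subtype.val h)
    have h1 := (hLRz p k F' (Units.mk0 ⟨(s : F), hsF⟩ hs0)).2
    have h3 := MT.anax_tr p (SpecialLinearGroup.map (n := Fin 2) F'.subtype) h1
    have e : SpecialLinearGroup.map (n := Fin 2) F'.subtype (h2 (Units.mk0 ⟨(s : F), hsF⟩ hs0)) =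
        h2 s := by
      rw [TLoc_map_h2]
      congr 1
      exact Units.ext rfl
    rw [e] at h3
    exact ⟨_, h3⟩
  · -- the quadratic extension
    obtain ⟨E, _, _, _, j, ι, a, m, hij, hcard, horder, ⟨w, hw⟩, hm⟩ :=
      TLoc_fld (p := p) F' s hp2 hs hsF
    obtain ⟨H, hH⟩ := hSeed p k F' E j a hp2 hcard horder
    have hNz : Nz p ((U2 F').map (SpecialLinearGroup.map j)) (h2 a) := by
      refine ⟨(hLRz p k F' 1).1.1.map _, ?_, ?_⟩
      · rw [TLoc_order, horder]
        intro hd
        have := Fintype.ofFinite F'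
        obtain ⟨n, hn0, hn⟩ := FiniteField.card F' p
        have hpr : p ∣ Nat.card F' := by
          rw [Nat.card_eq_fintype_card, hn]
          exact dvd_pow_self p n.pos.ne'
        have hr1 : 1 < Nat.card F' := Finite.one_lt_card
        rcases (Nat.Prime.dvd_mul hpp).1 hd with h | h
        · exact hp2 ((Nat.prime_dvd_prime_iff_eq hpp Nat.prime_two).1 h)
        · have h1 : p ∣ 1 := by
            have h2 := (Nat.dvd_sub hpr h)
            have h3 : Nat.card F' - (Nat.card F' - 1) = 1 := by omega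
            rwa [h3] at h2
          exact hpp.one_lt.ne' (Nat.dvd_one.1 h1)
      · rintro _ ⟨_, ⟨b, rfl⟩, rfl⟩
        refine ⟨u2 (w * b), ⟨w * b, rfl⟩, ?_⟩
        rw [TLoc_map_u2, TLoc_map_u2, TLoc_conj, map_mul, hw]
    have h3 := MT.anax_pow p m hNz hH
    have h4 := MT.anax_tr p (SpecialLinearGroup.map (n := Fin 2) ι) h3
    have e : SpecialLinearGroup.map (n := Fin 2) ι (h2 a ^ m) = h2 s := by
      rw [TLoc_pow, TLoc_map_h2]
      congr 1
      exact Units.ext hm
    have e2 : ((U2 F').map (SpecialLinearGroup.map j)).map (SpecialLinearGroup.map (n := Fin 2) ι) =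
        (U2 F').map (SpecialLinearGroup.map F'.subtype) := by
      rw [Subgroup.map_map]
      congr 1
      refine MonoidHom.ext fun M => ?_
      refine Subtype.ext ?_
      ext i i'
      exact hij _
    rw [e, e2] at h4
    exact ⟨_, h4⟩

end MP7b0bad.AdT
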