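import Pool.Agent.Work.MP_7b0bad_ag.AdT.Stmts
import Pool.Agent.Work.MP_7b0bad_ag.Ad.S2N

set_option autoImplicit false

/-!
# Block AdT, item TNrm: a `p`-group in `SL_2(F)`, characteristic `p` odd, normalised by an element of
order prime to `p`
-/

open Matrix

namespace MP7b0bad.AdT

open MT (h2 u2 Nz)
open Ad

/-- the conjugation with `diag(a, 1)` -/
def TNrm_dia {F : Type} [Field F] (a : Fˣ) :
    SpecialLinearGroup (Fin 2) F ≃* SpecialLinearGroup (Fin 2) F where
  toFun A := ⟨!![A.1 0 0, (a : F) * A.1 0 1; ((a⁻¹ : Fˣ) : F) * A.1 1 0, A.1 1 1], by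
    have hd := A.2
    rw [Matrix.det_fin_two] at hd
    rw [Matrix.det_fin_two_of]
    have h := a.mul_inv
    linear_combination hd - (A.1 0 1 * A.1 1 0) * h⟩
  invFun A := ⟨!![A.1 0 0, ((a⁻¹ : Fˣ) : F) * A.1 0 1; (a : F) * A.1 1 0, A.1 1 1], by
    have hd := A.2
    rw [Matrix.det_fin_two] at hd
    rw [Matrix.det_fin_two_of]
    have h := a.mul_inv
    linear_combination hd - (A.1 0 1 * A.1 1 0) * h⟩
  left_inv A := by
    apply S2N_ext <;> simp
  right_inv A := by
    apply S2N_ext <;> simp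
  map_mul' A B := by
    have h := a.mul_inv
    apply S2N_ext
    · refine Eq.trans (S2N_mul A B 0 0) (Eq.trans ?_ (S2N_mul _ _ 0 0).symm)
      change A.1 0 0 * B.1 0 0 + A.1 0 1 * B.1 1 0 =
        A.1 0 0 * B.1 0 0 + (a : F) * A.1 0 1 * (((a⁻¹ : Fˣ) : F) * B.1 1 0)
      linear_combination -(A.1 0 1 * B.1 1 0) * h
    · refine Eq.trans (congrArg (fun z => (a : F) * z) (S2N_mul A B 0 1))
        (Eq.trans ?_ (S2N_mul _ _ 0 1).symm)
      change (a : F) * (A.1 0 0 * B.1 0 1 + A.1 0 1 * B.1 1 1) =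
        A.1 0 0 * ((a : F) * B.1 0 1) + (a : F) * A.1 0 1 * B.1 1 1
      ring
    · refine Eq.trans (congrArg (fun z => ((a⁻¹ : Fˣ) : F) * z) (S2N_mul A B 1 0))
        (Eq.trans ?_ (S2N_mul _ _ 1 0).symm)
      change ((a⁻¹ : Fˣ) : F) * (A.1 1 0 * B.1 0 0 + A.1 1 1 * B.1 1 0) =
        ((a⁻¹ : Fˣ) : F) * A.1 1 0 * B.1 0 0 + A.1 1 1 * (((a⁻¹ : Fˣ) : F) * B.1 1 0)
      ring
    · refine Eq.trans (S2N_mul A B 1 1) (Eq.trans ?_ (S2N_mul _ _ 1 1).symm)
      change A.1 1 0 * B.1 0 1 + A.1 1 1 * B.1 1 1 =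
        ((a⁻¹ : Fˣ) : F) * A.1 1 0 * ((a : F) * B.1 0 1) + A.1 1 1 * B.1 1 1
      linear_combination -(A.1 1 0 * B.1 0 1) * h

theorem TNrm_dia_u2 {F : Type} [Field F] (a : Fˣ) (b : F) : TNrm_dia a (u2 b) = u2 ((a : F) * b) := by
  apply S2N_ext <;> simp [TNrm_dia, u2]

theorem TNrm_dia_h2 {F : Type} [Field F] (a s : Fˣ) : TNrm_dia a (h2 s) = h2 s := by
  apply S2N_ext <;> simp [TNrm_dia, h2]

theorem TNrm_card (p : ℕ) [Fact p.Prime] {F : Type} [Field F] [Finite F] [CharP F p] :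
    ∃ n : ℕ, Nat.card F = p ^ (n + 1) := by
  have := Fintype.ofFinite F
  obtain ⟨n, -, hn⟩ := FiniteField.card F p
  refine ⟨(n : ℕ) - 1, ?_⟩
  rw [Nat.card_eq_fintype_card, hn, Nat.sub_add_cancel n.pos]

/-- the `p`-group fixes a nonzero vector -/
theorem TNrm_fix (p : ℕ) [Fact p.Prime] {F : Type} [Field F] [Finite F] [CharP F p]
    (P : Subgroup (SpecialLinearGroup (Fin 2) F)) (hP : IsPGroup p P) :
    ∃ v : Fin 2 → F, v ≠ 0 ∧ ∀ x ∈ P, x.1 *ᵥ v = v := by
  letI act : MulAction P (Fin 2 → F) :=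
    { smul := fun x v => x.1.1 *ᵥ v
      one_smul := fun v => by
        change (1 : Matrix (Fin 2) (Fin 2) F) *ᵥ v = v
        exact Matrix.one_mulVec v
      mul_smul := fun x y v => by
        change (x.1.1 * y.1.1) *ᵥ v = x.1.1 *ᵥ (y.1.1 *ᵥ v)
        rw [Matrix.mulVec_mulVec] }
  have hc : p ∣ Nat.card (Fin 2 → F) := by
    obtain ⟨n, hn⟩ := TNrm_card p (F := F)
    rw [Nat.card_fun, hn]
    refine Dvd.dvd.pow ?_ (by simp)
    exact dvd_pow_self p (Nat.succ_ne_zero n)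
  have h0 : (0 : Fin 2 → F) ∈ MulAction.fixedPoints P (Fin 2 → F) := by
    intro x
    change x.1.1 *ᵥ (0 : Fin 2 → F) = 0
    exact Matrix.mulVec_zero _
  obtain ⟨v, hv, hne⟩ := hP.exists_fixed_point_of_prime_dvd_card_of_fixed_point
    (Fin 2 → F) hc h0
  refine ⟨v, fun h => hne h.symm, fun x hx => ?_⟩
  exact hv ⟨x, hx⟩

/-- after a conjugation the group consists of unitriangular matrices -/
theorem TNrm_conj (p : ℕ) [Fact p.Prime] {F : Type} [Field F] [Finite F] [CharP F p]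
    (P : Subgroup (SpecialLinearGroup (Fin 2) F)) (hP : IsPGroup p P) :
    ∃ g : SpecialLinearGroup (Fin 2) F, ∀ x ∈ P, ∃ a : F, x = g * u2 a * g⁻¹ := by
  obtain ⟨v, hv, hf⟩ := TNrm_fix p P hP
  obtain ⟨g, h0, h1⟩ := S2N_col v hv
  refine ⟨g, fun x hx => ?_⟩
  set y : SpecialLinearGroup (Fin 2) F := g⁻¹ * x * g with hy
  have hgy : g * y = x * g := by rw [hy]; group
  have hx := hf x hx
  have e0 : (x * g).1 0 0 = g.1 0 0 := by
    rw [S2N_mul, h0, h1]
    have := congrFun hx 0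
    rw [Matrix.mulVec, dotProduct, Fin.sum_univ_two] at this
    exact this
  have e1 : (x * g).1 1 0 = g.1 1 0 := by
    rw [S2N_mul, h0, h1]
    have := congrFun hx 1
    rw [Matrix.mulVec, dotProduct, Fin.sum_univ_two] at this
    exact this
  rw [← hgy, S2N_mul] at e0 e1
  have hd := g.2
  rw [Matrix.det_fin_two] at hd
  have hy0 : y.1 0 0 = 1 := by
    linear_combination (g.1 1 1) * e0 - (g.1 0 1) * e1 + (1 - y.1 0 0) * hd
  have hy1 : y.1 1 0 = 0 := by
    linear_combination (g.1 0 0) * e1 - (g.1 1 0) * e0 - (y.1 1 0) * hd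
  refine ⟨y.1 0 1, ?_⟩
  rw [← S2N_mk y hy0 hy1, hgy]
  group

theorem TNrm_u2_pow {F : Type} [Field F] (a : F) (n : ℕ) : (u2 a) ^ n = u2 ((n : F) * a) := by
  induction n with
  | zero => rw [pow_zero, Nat.cast_zero, zero_mul, S2N_u2_zero]
  | succ n ih => rw [pow_succ, ih, S2N_u2_mul, Nat.cast_succ]; congr 1; ring

/-- the case of a group of unitriangular matrices -/
theorem TNrm_unip (p : ℕ) [Fact p.Prime] {F : Type} [Field F] [Finite F] [CharP F p] (hp2 : p ≠ 2)
    (P : Subgroup (SpecialLinearGroup (Fin 2) F)) (c : SpecialLinearGroup (Fin 2) F)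
    (hc2 : ¬ p ∣ orderOf c) (hcP : ∀ x ∈ P, c * x * c⁻¹ ∈ P) (hne : P ≠ ⊥)
    (hU : ∀ x ∈ P, ∃ a : F, x = u2 a) :
    ∃ (F' : Subfield F) (φ : SpecialLinearGroup (Fin 2) F ≃* SpecialLinearGroup (Fin 2) F) (s : Fˣ),
    (s : F) ^ 2 ∈ F' ∧
    (∀ b : F', φ (SpecialLinearGroup.map F'.subtype (u2 b)) ∈ P) ∧ φ (h2 s) = c := by
  classical
  have hpp : p.Prime := Fact.out
  have hF2 : (2 : F) ≠ 0 := by
    intro h
    have h1 : ((2 : ℕ) : F) = 0 := by exact_mod_cast h
    rw [CharP.cast_eq_zero_iff F p 2] at h1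
    have := Nat.le_of_dvd (by norm_num) h1
    have := hpp.two_le
    omega
  -- a nontrivial element
  obtain ⟨a0, ha0, ha0P⟩ : ∃ a : F, a ≠ 0 ∧ u2 a ∈ P := by
    obtain ⟨⟨x, hx⟩, hx0⟩ := Subgroup.ne_bot_iff_exists_ne_one.1 hne
    have hx1 : x ≠ 1 := fun h => hx0 (Subtype.ext h)
    obtain ⟨a, rfl⟩ := hU x hx
    exact ⟨a, fun h => hx1 (by rw [h, S2N_u2_zero]), hx⟩
  -- `c` is upper triangular
  have hr : c.1 1 0 = 0 := by
    obtain ⟨b, hb⟩ := hU _ (hcP _ ha0P)
    rw [mul_inv_eq_iff_eq_mul] at hb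
    have h11 : (c * u2 a0).1 1 1 = (u2 b * c).1 1 1 := by rw [hb]
    rw [S2N_mul, S2N_mul] at h11
    simp [u2] at h11
    rcases h11 with h | h
    · exact h
    · exact absurd h ha0
  have hdet : c.1 0 0 * c.1 1 1 = 1 := by
    have hd := c.2
    rw [Matrix.det_fin_two, hr, mul_zero, sub_zero] at hd
    exact hd
  let l : Fˣ := ⟨c.1 0 0, c.1 1 1, hdet, by rw [mul_comm]; exact hdet⟩
  have hl : (l : F) = c.1 0 0 := rfl
  have hl' : ((l⁻¹ : Fˣ) : F) = c.1 1 1 := rfl
  -- `c` is conjugate to a diagonal matrix by an element of `U2`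
  obtain ⟨t, ht⟩ : ∃ t : F, c = u2 t * h2 l * (u2 t)⁻¹ := by
    by_cases h1 : c.1 1 1 - c.1 0 0 = 0
    · have h11 : c.1 1 1 = c.1 0 0 := sub_eq_zero.1 h1
      have hsq0 : c.1 0 0 * c.1 0 0 = 1 := by
        have := hdet
        rwa [h11] at this
      have hcu : c ^ 2 = u2 (2 * (c.1 0 0 * c.1 0 1)) := by
        rw [sq]
        apply S2N_ext
        · rw [S2N_mul, hr]; simp [u2, hsq0]
        · rw [S2N_mul, h11]; simp [u2]; ring
        · rw [S2N_mul, hr]; simp [u2]
        · rw [S2N_mul, hr, h11]; simp [u2, hsq0]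
      have hcp : c ^ (2 * p) = 1 := by
        rw [pow_mul, hcu, TNrm_u2_pow, CharP.cast_eq_zero, zero_mul, S2N_u2_zero]
      have hdv : orderOf c ∣ 2 * p := orderOf_dvd_of_pow_eq_one hcp
      have hcop : Nat.Coprime (orderOf c) p := by
        rw [Nat.coprime_comm]
        exact (Nat.Prime.coprime_iff_not_dvd hpp).2 hc2
      have hdv2 : orderOf c ∣ 2 := hcop.dvd_of_dvd_mul_right hdv
      have hc1 : c ^ 2 = 1 := orderOf_dvd_iff_pow_eq_one.1 hdv2
      rw [hcu, ← S2N_u2_zero] at hc1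
      have hz := S2N_u2_inj hc1
      have hz2 : c.1 0 1 = 0 := by
        rcases mul_eq_zero.1 hz with h | h
        · exact absurd h hF2
        · rcases mul_eq_zero.1 h with h | h
          · rw [h, zero_mul] at hsq0
            exact absurd hsq0 zero_ne_one
          · exact h
      refine ⟨0, ?_⟩
      rw [S2N_u2_zero, one_mul, inv_one, mul_one]
      apply S2N_ext
      · simp [h2, hl]
      · rw [hz2]; simp [h2]
      · rw [hr]; simp [h2]
      · simp [h2, hl']
    · refine ⟨c.1 0 1 / (c.1 1 1 - c.1 0 0), ?_⟩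
      rw [eq_mul_inv_iff_mul_eq]
      apply S2N_ext <;> rw [S2N_mul, S2N_mul]
      · simp [h2, u2, hl]
      · simp [h2, u2, hl']
        field_simp
        ring
      · simp [h2, u2, hr]
      · simp [h2, u2, hr, hl']
  -- the additive group `M`
  have hMadd : ∀ a b : F, u2 a ∈ P → u2 b ∈ P → u2 (a + b) ∈ P := by
    intro a b ha hb
    rw [← S2N_u2_mul]
    exact P.mul_mem ha hb
  have hMneg : ∀ a : F, u2 a ∈ P → u2 (-a) ∈ P := by
    intro a ha
    rw [← S2N_u2_inv]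
    exact P.inv_mem ha
  have hM0 : u2 (0 : F) ∈ P := by rw [S2N_u2_zero]; exact P.one_mem
  have hMl : ∀ a : F, u2 a ∈ P → u2 ((l : F) ^ 2 * a) ∈ P := by
    intro a ha
    have h := hcP _ ha
    have e : c * u2 a * c⁻¹ = u2 ((l : F) ^ 2 * a) := by
      have e1 : (u2 t)⁻¹ * u2 a * u2 t = u2 a := by
        rw [S2N_u2_inv, S2N_u2_mul, S2N_u2_mul]
        congr 1
        ring
      have e2 : u2 t * u2 ((l : F) ^ 2 * a) * (u2 t)⁻¹ = u2 ((l : F) ^ 2 * a) := by
        rw [S2N_u2_inv, S2N_u2_mul, S2N_u2_mul]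
        congr 1
        ring
      calc c * u2 a * c⁻¹
          = u2 t * (h2 l * ((u2 t)⁻¹ * u2 a * u2 t) * (h2 l)⁻¹) * (u2 t)⁻¹ := by
            conv_lhs => rw [ht]
            group
        _ = u2 t * u2 ((l : F) ^ 2 * a) * (u2 t)⁻¹ := by rw [e1, S2N_h2_u2]
        _ = _ := e2
    rw [← e]
    exact h
  -- the subfield of multipliers
  have hpow : ∀ x : F, (∀ a : F, u2 a ∈ P → u2 (x * a) ∈ P) → ∀ n : ℕ, ∀ a : F, u2 a ∈ P →
      u2 (x ^ n * a) ∈ P := by
    intro x hx n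
    induction n with
    | zero => intro a ha; rw [pow_zero, one_mul]; exact ha
    | succ n ih =>
      intro a ha
      rw [pow_succ', mul_assoc]
      exact hx _ (ih a ha)
  obtain ⟨m, hm⟩ := TNrm_card p (F := F)
  have hfrob : ∀ x : F, x ^ (p ^ (m + 1)) = x := by
    intro x
    have := Fintype.ofFinite F
    have h := FiniteField.pow_card x
    rw [← Nat.card_eq_fintype_card, hm] at h
    exact h
  let F' : Subfield F :=
    { carrier := {x : F | ∀ a : F, u2 a ∈ P → u2 (x * a) ∈ P}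
      mul_mem' := by
        intro x y hx hy a ha
        rw [mul_assoc]
        exact hx _ (hy a ha)
      one_mem' := by
        intro a ha
        rw [one_mul]
        exact ha
      add_mem' := by
        intro x y hx hy a ha
        rw [add_mul]
        exact hMadd _ _ (hx a ha) (hy a ha)
      zero_mem' := by
        intro a ha
        rw [zero_mul]
        exact hM0
      neg_mem' := by
        intro x hx a ha
        rw [neg_mul]
        exact hMneg _ (hx a ha)
      inv_mem' := by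
        intro x hx
        by_cases h0 : x = 0
        · rw [h0, _root_.inv_zero]
          intro a ha
          rw [zero_mul]
          exact hM0
        · have hx2 : x⁻¹ = x ^ (p ^ (m + 1) - 2) := by
            have h2 : 2 ≤ p ^ (m + 1) := by
              calc 2 ≤ p := hpp.two_le
                _ = p ^ 1 := (pow_one p).symm
                _ ≤ p ^ (m + 1) := Nat.pow_le_pow_right hpp.pos (by omega)
            have h3 : x ^ (p ^ (m + 1) - 2) * x ^ 2 = x := by
              rw [← pow_add, Nat.sub_add_cancel h2]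
              exact hfrob x
            have h4 : x ^ (p ^ (m + 1) - 2) * x = 1 := by
              have h5 : (x ^ (p ^ (m + 1) - 2) * x) * x = 1 * x := by
                rw [one_mul, mul_assoc, ← sq]
                exact h3
              exact mul_right_cancel₀ h0 h5
            exact (eq_inv_of_mul_eq_one_left h4).symm
          rw [hx2]
          exact hpow x hx _ }
  have hF' : ∀ x : F, x ∈ F' ↔ ∀ a : F, u2 a ∈ P → u2 (x * a) ∈ P := fun x => Iff.rfl
  have hlF : (l : F) ^ 2 ∈ F' := (hF' _).2 hMl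
  have hmu : ∀ b : F', SpecialLinearGroup.map F'.subtype (u2 b) = u2 (b : F) := by
    intro b
    apply S2N_ext <;> simp [u2, SpecialLinearGroup.map]
  let φ : SpecialLinearGroup (Fin 2) F ≃* SpecialLinearGroup (Fin 2) F :=
    (TNrm_dia (Units.mk0 a0 ha0)).trans (MulAut.conj (u2 t))
  have hφ : ∀ x, φ x = u2 t * TNrm_dia (Units.mk0 a0 ha0) x * (u2 t)⁻¹ := fun x => rfl
  refine ⟨F', φ, l, hlF, ?_, ?_⟩
  · intro b
    rw [hmu, hφ, TNrm_dia_u2, Units.val_mk0, S2N_u2_inv, S2N_u2_mul, S2N_u2_mul]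
    have e : t + a0 * (b : F) + -t = (b : F) * a0 := by ring
    rw [e]
    exact (hF' _).1 b.2 a0 ha0P
  · rw [hφ, TNrm_dia_h2, ← ht]

theorem prf_TNrm : TNrm := by
  intro p _ F _ _ _ P c hp2 hN hne
  obtain ⟨hP, hc2, hcP⟩ := hN
  obtain ⟨g, hg⟩ := TNrm_conj p P hP
  let φ : SpecialLinearGroup (Fin 2) F ≃* SpecialLinearGroup (Fin 2) F := MulAut.conj g
  have hφ : ∀ x, φ x = g * x * g⁻¹ := fun x => rfl
  have hφi : Function.Injective φ.toMonoidHom := φ.injective
  have hφm : ∀ x, φ.toMonoidHom x = g * x * g⁻¹ := fun x => rfl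
  have hord : orderOf (g⁻¹ * c * g) = orderOf c := by
    have h := orderOf_injective φ.toMonoidHom hφi (g⁻¹ * c * g)
    rw [hφm] at h
    have e : g * (g⁻¹ * c * g) * g⁻¹ = c := by group
    rw [e] at h
    exact h.symm
  obtain ⟨F', ψ, s, hs, h1, h2'⟩ := TNrm_unip p hp2 (P.comap φ.toMonoidHom) (g⁻¹ * c * g)
    (by rw [hord]; exact hc2)
    (by
      intro x hx
      rw [Subgroup.mem_comap, hφm] at hx ⊢
      have e : g * (g⁻¹ * c * g * x * (g⁻¹ * c * g)⁻¹) * g⁻¹ = c * (g * x * g⁻¹) * c⁻¹ := by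
        group
      rw [e]
      exact hcP _ hx)
    (by
      intro hb
      apply hne
      rw [eq_bot_iff]
      intro x hx
      have hx' : g⁻¹ * x * g ∈ P.comap φ.toMonoidHom := by
        rw [Subgroup.mem_comap, hφm]
        have e : g * (g⁻¹ * x * g) * g⁻¹ = x := by group
        rw [e]
        exact hx
      rw [hb, Subgroup.mem_bot] at hx'
      rw [Subgroup.mem_bot]
      have e : x = g * (g⁻¹ * x * g) * g⁻¹ := by group
      rw [e, hx', mul_one, mul_inv_cancel])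
    (by
      intro x hx
      rw [Subgroup.mem_comap, hφm] at hx
      obtain ⟨a, ha⟩ := hg _ hx
      exact ⟨a, by
        have e : g⁻¹ * (g * x * g⁻¹) * g = g⁻¹ * (g * u2 a * g⁻¹) * g := by rw [ha]
        have e1 : g⁻¹ * (g * x * g⁻¹) * g = x := by group
        have e2 : g⁻¹ * (g * u2 a * g⁻¹) * g = u2 a := by group
        rw [← e1, e, e2]⟩)
  refine ⟨F', ψ.trans φ, s, hs, fun b => ?_, ?_⟩
  · have h := h1 b
    rw [Subgroup.mem_comap] at h
    exact h
  · rw [MulEquiv.trans_apply, h2', hφ]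
    group

end MP7b0bad.AdT
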