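import Pool.Agent.Work.MP_7b0bad_ag.AdT.Stmts
import Pool.Agent.Work.MP_7b0bad_ag.SL.SLFin
import Pool.Agent.Work.MP_7b0bad_ag.SL.PSIn

set_option autoImplicit false

/-!
# Block AdT, item TPSL: the full conjecture for `PSL_2(F)` in the defining characteristic
-/

open Matrix

namespace MP7b0bad.AdT

open MT (Bor2 h2 u2 Rz Nz)

/-- lower unitriangular matrices -/
def TPSL_l2 {F : Type} [Field F] (c : F) : SpecialLinearGroup (Fin 2) F :=
  ⟨!![1, 0; c, 1], by simp [Matrix.det_fin_two]⟩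

theorem TPSL_u2_mul {F : Type} [Field F] (a b : F) : u2 a * u2 b = u2 (a + b) := by
  apply Subtype.ext
  show !![1, a; 0, 1] * !![1, b; 0, 1] = !![1, a + b; 0, 1]
  rw [Matrix.mul_fin_two]
  simp [add_comm]

theorem TPSL_l2_mul {F : Type} [Field F] (a b : F) : TPSL_l2 a * TPSL_l2 b = TPSL_l2 (a + b) := by
  apply Subtype.ext
  show !![1, 0; a, 1] * !![1, 0; b, 1] = !![1, 0; a + b, 1]
  rw [Matrix.mul_fin_two]
  simp

theorem TPSL_u2_zero (F : Type) [Field F] : u2 (0 : F) = 1 := by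
  apply Subtype.ext
  show !![1, (0 : F); 0, 1] = 1
  rw [Matrix.one_fin_two]

theorem TPSL_l2_zero (F : Type) [Field F] : TPSL_l2 (0 : F) = 1 := by
  apply Subtype.ext
  show !![1, (0 : F); 0, 1] = 1
  rw [Matrix.one_fin_two]

theorem TPSL_u2_pow {F : Type} [Field F] (b : F) (n : ℕ) : (u2 b) ^ n = u2 ((n : F) * b) := by
  induction n with
  | zero => rw [pow_zero, Nat.cast_zero, zero_mul, TPSL_u2_zero]
  | succ n ih => rw [pow_succ, ih, TPSL_u2_mul, Nat.cast_succ, add_mul, one_mul]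

theorem TPSL_l2_pow {F : Type} [Field F] (b : F) (n : ℕ) :
    (TPSL_l2 b) ^ n = TPSL_l2 ((n : F) * b) := by
  induction n with
  | zero => rw [pow_zero, Nat.cast_zero, zero_mul, TPSL_l2_zero]
  | succ n ih => rw [pow_succ, ih, TPSL_l2_mul, Nat.cast_succ, add_mul, one_mul]

theorem TPSL_ne {F : Type} [Field F] (M : SpecialLinearGroup (Fin 2) F) (h : M.1 1 0 ≠ 0) :
    M = u2 ((M.1 0 0 - 1) / M.1 1 0) * TPSL_l2 (M.1 1 0) * u2 ((M.1 1 1 - 1) / M.1 1 0) := by
  have hd := M.2
  rw [Matrix.det_fin_two] at hd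
  apply Subtype.ext
  show M.1 = !![1, (M.1 0 0 - 1) / M.1 1 0; 0, 1] * !![1, 0; M.1 1 0, 1] *
    !![1, (M.1 1 1 - 1) / M.1 1 0; 0, 1]
  rw [Matrix.mul_fin_two, Matrix.mul_fin_two]
  generalize M.1 = A at hd h ⊢
  ext i j
  fin_cases i <;> fin_cases j
  · simp only [Fin.zero_eta, Fin.isValue, Matrix.of_apply, Matrix.cons_val', Matrix.cons_val_zero, Matrix.cons_val_fin_one]
    field_simp
    ring
  · simp only [Fin.zero_eta, Fin.isValue, Fin.mk_one, Matrix.of_apply, Matrix.cons_val', Matrix.cons_val_zero, Matrix.cons_val_one, Matrix.cons_val_fin_one]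
    field_simp
    linear_combination -hd
  · simp
  · simp only [Fin.mk_one, Fin.isValue, Matrix.of_apply, Matrix.cons_val', Matrix.cons_val_zero, Matrix.cons_val_one, Matrix.cons_val_fin_one]
    field_simp
    ring

/-- a subgroup of `SL_2(F)` that contains the elementary matrices is everything -/
theorem TPSL_gen {F : Type} [Field F] (N : Subgroup (SpecialLinearGroup (Fin 2) F))
    (hu : ∀ b : F, u2 b ∈ N) (hl : ∀ b : F, TPSL_l2 b ∈ N) : N = ⊤ := by
  have h0 : ∀ M : SpecialLinearGroup (Fin 2) F, M.1 1 0 ≠ 0 → M ∈ N := by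
    intro M h
    rw [TPSL_ne M h]
    exact N.mul_mem (N.mul_mem (hu _) (hl _)) (hu _)
  rw [eq_top_iff]
  intro M _
  by_cases h : M.1 1 0 = 0
  · have hd := M.2
    rw [Matrix.det_fin_two, h, mul_zero, sub_zero] at hd
    have ha : M.1 0 0 ≠ 0 := left_ne_zero_of_mul_eq_one hd
    have h1 : TPSL_l2 1 * M ∈ N := by
      apply h0
      have : (TPSL_l2 1 * M).1 1 0 = M.1 0 0 + M.1 1 0 := by
        show ((!![1, 0; 1, 1] : Matrix (Fin 2) (Fin 2) F) * M.1) 1 0 = _
        rw [Matrix.mul_apply, Fin.sum_univ_two]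
        simp
      rw [this, h, add_zero]
      exact ha
    exact (N.mul_mem_cancel_left (hl 1)).1 h1
  · exact h0 M h

/-- the centre of `SL_2(F)` has exponent prime to `p` -/
theorem TPSL_exp (p : ℕ) [Fact p.Prime] (F : Type) [Field F] [CharP F p] :
    ∃ e : ℕ, ¬ p ∣ e ∧ ∀ z ∈ Subgroup.center (SpecialLinearGroup (Fin 2) F), z ^ e = 1 := by
  by_cases hp : p = 2
  · subst hp
    refine ⟨1, by decide, ?_⟩
    intro z hz
    obtain ⟨r, hr, hs⟩ := Matrix.SpecialLinearGroup.mem_center_iff.1 hz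
    have h2 : r ^ 2 = 1 := by simpa using hr
    have h3 : r = 1 := by
      have h4 : (r - 1) ^ 2 = 0 := by
        have h5 : (2 : F) = 0 := CharP.cast_eq_zero F 2
        linear_combination h2 + (1 - r) * h5
      exact sub_eq_zero.1 (pow_eq_zero_iff (two_ne_zero) |>.1 h4)
    rw [pow_one]
    apply Subtype.ext
    rw [← hs, h3, map_one]
    rfl
  · refine ⟨2, ?_, fun z hz => SL.PSIn_sq F z hz⟩
    intro h
    exact hp ((Nat.prime_dvd_prime_iff_eq (Fact.out : p.Prime) Nat.prime_two).1 h)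

theorem prf_TPSL (hSL2 : TSL2) (hQuo : SL.SLQuo) : TPSL := by
  intro k _ _ p _ _ F _ _ _ P c hN hcl
  have hpp : p.Prime := Fact.out
  have : Finite (Matrix.SpecialLinearGroup (Fin 2) F) :=
    inferInstanceAs (Finite {A : Matrix (Fin 2) (Fin 2) F // A.det = 1})
  obtain ⟨e, hpe, he⟩ := TPSL_exp p F
  set Z := Subgroup.center (SpecialLinearGroup (Fin 2) F) with hZ
  set π := QuotientGroup.mk' Z with hπ
  obtain ⟨S, hS, hSP⟩ := SL.SLFin_lift p Z P hN.1
  -- a central element of `p`-power order is trivial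
  have hz1 : ∀ z ∈ Z, ∀ n : ℕ, z ^ p ^ n = 1 → z = 1 := by
    intro z hz n hn
    have h1 : orderOf z ∣ p ^ n := orderOf_dvd_of_pow_eq_one hn
    have h2 : orderOf z ∣ e := orderOf_dvd_of_pow_eq_one (he z hz)
    have h3 : Nat.Coprime (p ^ n) e := Nat.Coprime.pow_left n ((Nat.Prime.coprime_iff_not_dvd hpp).2 hpe)
    exact orderOf_eq_one_iff.1 (Nat.dvd_one.1 (h3 ▸ Nat.dvd_gcd h1 h2))
  -- the elements of `p`-power order above `P`
  have hSm : ∀ g : SpecialLinearGroup (Fin 2) F, π g ∈ P → ∀ n : ℕ, g ^ p ^ n = 1 → g ∈ S := by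
    intro g hg n hn
    rw [← hSP] at hg
    obtain ⟨s, hs, hsg⟩ := Subgroup.mem_map.1 hg
    have hz : s⁻¹ * g ∈ Z := QuotientGroup.eq.1 hsg
    obtain ⟨m, hm⟩ := hS ⟨s, hs⟩
    have hm' : s ^ p ^ m = 1 := by
      have := congrArg Subtype.val hm
      simpa using this
    have hc : g = s * (s⁻¹ * g) := by group
    have h5 : (s⁻¹ * g) ^ p ^ (n + m) = 1 := by
      have hcom : Commute (s⁻¹) (s⁻¹ * g) := (Subgroup.mem_center_iff.1 hz s⁻¹)
      have hcom2 : Commute s⁻¹ g := by
        have h6 : Commute s⁻¹ (s * (s⁻¹ * g)) := (Commute.inv_left (Commute.refl s)).mul_right hcom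
        rwa [← hc] at h6
      rw [hcom2.mul_pow]
      have h7 : s⁻¹ ^ p ^ (n + m) = 1 := by
        rw [inv_pow, pow_add, mul_comm, pow_mul, hm', one_pow, inv_one]
      rw [h7, one_mul, pow_add, pow_mul, hn, one_pow]
    have h8 := hz1 _ hz _ h5
    rw [hc, h8, mul_one]
    exact hs
  -- the tame element
  obtain ⟨c', hc'⟩ := QuotientGroup.mk'_surjective Z c
  have hordc : orderOf c' ∣ orderOf c * e := by
    apply orderOf_dvd_of_pow_eq_one
    rw [pow_mul]
    apply he
    rw [← QuotientGroup.eq_one_iff]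
    have : π (c' ^ orderOf c) = 1 := by
      rw [map_pow, hc', pow_orderOf_eq_one]
    exact this
  have hN' : Nz p S c' := by
    refine ⟨hS, ?_, ?_⟩
    · intro h
      rcases hpp.dvd_mul.1 (h.trans hordc) with h1 | h1
      · exact hN.2.1 h1
      · exact hpe h1
    · intro x hx
      obtain ⟨m, hm⟩ := hS ⟨x, hx⟩
      have hm' : x ^ p ^ m = 1 := by
        have := congrArg Subtype.val hm
        simpa using this
      refine hSm _ ?_ m ?_
      · rw [map_mul, map_mul, map_inv, hc']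
        apply hN.2.2
        rw [← hSP]
        exact Subgroup.mem_map_of_mem _ hx
      · rw [conj_pow, hm', mul_one, mul_inv_cancel]
  -- the normal closure
  have hcl' : Subgroup.normalClosure (S : Set (SpecialLinearGroup (Fin 2) F)) = ⊤ := by
    set N := Subgroup.normalClosure (S : Set (SpecialLinearGroup (Fin 2) F)) with hNdef
    have h1 : N.map π = ⊤ := by
      have : (N.map π).Normal := Subgroup.Normal.map inferInstance π (QuotientGroup.mk'_surjective Z)
      rw [eq_top_iff, ← hcl]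
      refine Subgroup.normalClosure_le_normal ?_
      rw [← hSP]
      rintro _ ⟨x, hx, rfl⟩
      exact Subgroup.mem_map_of_mem _ (Subgroup.subset_normalClosure hx)
    have h2 : ∀ t : SpecialLinearGroup (Fin 2) F, t ^ p = 1 → t ∈ N := by
      intro t ht
      have h3 : π t ∈ N.map π := by
        rw [h1]
        trivial
      obtain ⟨n, hn, hnt⟩ := Subgroup.mem_map.1 h3
      have hz : n⁻¹ * t ∈ Z := QuotientGroup.eq.1 hnt
      have hcom : Commute n (n⁻¹ * t) := (Subgroup.mem_center_iff.1 hz n)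
      have h4 : t ^ e = n ^ e := by
        have : t = n * (n⁻¹ * t) := by group
        rw [this, hcom.mul_pow, he _ hz, mul_one]
      have h5 : t ^ e ∈ N := by
        rw [h4]
        exact N.pow_mem hn e
      have hcop : IsCoprime (e : ℤ) (p : ℤ) :=
        Nat.isCoprime_iff_coprime.2 (((Nat.Prime.coprime_iff_not_dvd hpp).2 hpe).symm)
      obtain ⟨a, b, hab⟩ := hcop
      have h6 : t = (t ^ e) ^ a * (t ^ p) ^ b := by
        rw [← zpow_natCast, ← zpow_natCast, ← _root_.zpow_mul, ← _root_.zpow_mul, ← _root_.zpow_add, mul_comm (e : ℤ) a,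
          mul_comm (p : ℤ) b, hab, zpow_one]
      rw [h6, ht, _root_.one_zpow, mul_one]
      exact N.zpow_mem h5 a
    refine TPSL_gen N (fun b => h2 _ ?_) (fun b => h2 _ ?_)
    · rw [TPSL_u2_pow, CharP.cast_eq_zero, zero_mul, TPSL_u2_zero]
    · rw [TPSL_l2_pow, CharP.cast_eq_zero, zero_mul, TPSL_l2_zero]
  have h := hQuo k p (SpecialLinearGroup (Fin 2) F) _ Z (hSL2 k p F S c' hN' hcl')
  rw [Subgroup.map_sup, MonoidHom.map_zpowers] at h
  have h9 : S.map (QuotientGroup.mk' Z) = P := hSP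
  have h10 : QuotientGroup.mk' Z c' = c := hc'
  rw [h9, h10] at h
  exact h

end MP7b0bad.AdT
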