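import Pool.Agent.Work.MP_7b0bad_ag.AdT.Stmts
import Pool.Agent.Work.MP_7b0bad_ag.MT.ANax
import Pool.Agent.Work.MP_7b0bad_ag.MT.MChar2
import Pool.Agent.Work.MP_7b0bad_ag.SV.LAll

set_option autoImplicit false

/-!
# Block AdT, item TSL2: the full conjecture for `SL_2(F)` in the defining characteristic
-/

open Polynomial Pointwise Matrix

namespace MP7b0bad.AdT

open SnT (cc xx)
open MT (Bor2 h2 u2 Rz Nz)
open Ad (U2)

/-- `diag(s, s⁻¹)` acts on `u2 b` as multiplication by `s ^ 2` -/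
theorem TSL2_conj {F : Type} [Field F] (F' : Subfield F) (s : Fˣ) (hs : (s : F) ^ 2 ∈ F') (b : F') :
    h2 s * SpecialLinearGroup.map F'.subtype (u2 b) * (h2 s)⁻¹ =
      SpecialLinearGroup.map F'.subtype (u2 ((⟨(s : F) ^ 2, hs⟩ : F') * b)) := by
  rw [mul_inv_eq_iff_eq_mul]
  refine Subtype.ext ?_
  have hs0 : (s : F) ≠ 0 := s.ne_zero
  ext i j
  fin_cases i <;> fin_cases j <;>
    simp [u2, h2, Matrix.mul_apply, Fin.sum_univ_two, SpecialLinearGroup.map_apply_coe]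
  field_simp

theorem prf_TSL2 (hNrm : TNrm) (hLoc : TLoc) (hMRz : MT.MRz) (hSL : SL.SLFin) (hMSL2 : MT.MSL2) :
    TSL2 := by
  intro k _ _ p _ _ F _ _ _ P c hN hcl
  by_cases hp : p = 2
  · subst hp
    exact hMSL2 k F P c hN hcl
  have hP : P ≠ ⊥ := by
    rintro rfl
    have h1 : Subgroup.normalClosure ((⊥ : Subgroup (SpecialLinearGroup (Fin 2) F)) :
        Set (SpecialLinearGroup (Fin 2) F)) = ⊥ := by
      rw [eq_bot_iff]
      exact Subgroup.normalClosure_le_normal le_rfl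
    rw [h1] at hcl
    have h2 : u2 (1 : F) ∈ (⊥ : Subgroup (SpecialLinearGroup (Fin 2) F)) := by
      rw [hcl]
      exact Subgroup.mem_top _
    rw [Subgroup.mem_bot] at h2
    have h3 := congrArg (fun M : SpecialLinearGroup (Fin 2) F => M.1 0 1) h2
    simp [u2] at h3
  obtain ⟨F', φ, s, hs, h1, hc⟩ := hNrm p F P c hp hN hP
  obtain ⟨H, hH⟩ := hLoc p k F F' s hp hs
  have h3 := MT.anax_tr p φ.toMonoidHom hH
  have hc' : φ.toMonoidHom (h2 s) = c := hc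
  rw [hc'] at h3
  have hle : ((U2 F').map (SpecialLinearGroup.map F'.subtype)).map φ.toMonoidHom ≤ P := by
    rintro _ ⟨_, ⟨_, ⟨b, rfl⟩, rfl⟩, rfl⟩
    exact h1 b
  have hN0 : Nz p (((U2 F').map (SpecialLinearGroup.map F'.subtype)).map φ.toMonoidHom) c := by
    refine ⟨hN.1.to_le hle, hN.2.1, ?_⟩
    rintro _ ⟨_, ⟨_, ⟨b, rfl⟩, rfl⟩, rfl⟩
    refine ⟨_, ⟨_, ⟨(⟨(s : F) ^ 2, hs⟩ : F') * b, rfl⟩, rfl⟩, ?_⟩
    rw [← TSL2_conj F' s hs b, map_mul, map_mul, map_inv, hc']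
  have hone : Nz p P (1 : SpecialLinearGroup (Fin 2) F) := by
    refine ⟨hN.1, ?_, fun x hx => by simpa using hx⟩
    rw [orderOf_one]
    exact (Fact.out : p.Prime).one_lt.ne' ∘ Nat.dvd_one.1
  have hcard : p ∣ Nat.card F := by
    let _ := Fintype.ofFinite F
    rw [Nat.card_eq_fintype_card]
    obtain ⟨r, -, hr⟩ := FiniteField.card F p
    rw [hr]
    exact dvd_pow_self p r.pos.ne'
  have hocc := (hSL k p F 2 1 one_pos one_lt_two (Or.inl hcard)).1 P hN.1 hcl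
  have hrel : Rel k (SpecialLinearGroup (Fin 2) F) P := (all_T0 k _ P).2 hocc
  have hRz1 : Rz k P (1 : SpecialLinearGroup (Fin 2) F) ⊤ := by
    refine ⟨le_top, ?_⟩
    rw [Subgroup.zpowers_one_eq_bot, sup_bot_eq]
    exact MT.MChar2_toTop k _ P hrel
  have h := hMRz k p _ P _ P _ ⊤ c 1 hN hone hN0 hone hle le_rfl (by rw [mul_one, one_mul]) h3 hRz1
  rw [mul_one, sup_top_eq] at h
  exact MT.MChar2_ofTop k _ _ h.2

end MP7b0bad.AdT
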