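import Pool.Agent.Work.MP_7b0bad_ag.AdT.Stmts
import Pool.Agent.Work.MP_7b0bad_ag.AnT.Fin
import Pool.Agent.Work.MP_7b0bad_ag.SnT.SIner

set_option autoImplicit false

/-!
# Block AdT: the seed in `SL_2(E)`, `|E| = |F| ^ 2`
-/

open Polynomial Pointwise Matrix

namespace MP7b0bad.AdT

open SnT (cc xx)
open MT (Bor2 h2 u2 Rz Nz)
open Ad (U2)

/-- a finite field embeds in an algebraically closed field of the same characteristic -/
theorem TSeed_emb (p : ℕ) [Fact p.Prime] (k : Type) [Field k] [IsAlgClosed k] [CharP k p]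
    (F : Type) [Field F] [Finite F] [CharP F p] : Nonempty (F →+* k) := by
  let _ : Algebra (ZMod p) F := ZMod.algebra F p
  let _ : Algebra (ZMod p) k := ZMod.algebra k p
  have h1 : Module.Finite (ZMod p) F := Module.Finite.of_finite
  have h2 : Algebra.IsAlgebraic (ZMod p) F := Algebra.IsAlgebraic.of_finite (ZMod p) F
  exact ⟨(IsAlgClosed.lift (R := ZMod p) (S := F) (M := k)).toRingHom⟩

theorem TSeed_card (p : ℕ) [Fact p.Prime] (F : Type) [Field F] [Finite F] [CharP F p] :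
    ∃ n : ℕ, 0 < n ∧ Nat.card F = p ^ n := by
  have _inst : Fintype F := Fintype.ofFinite F
  obtain ⟨n, -, hn⟩ := FiniteField.card F p
  exact ⟨n, n.2, by rw [Nat.card_eq_fintype_card, hn]⟩

theorem TSeed_core (k : Type) [Field k] [IsAlgClosed k] (G : Type) [Group G] [Finite G] (L : Type)
    [Field L] [Algebra (RatFunc k) L] [FiniteDimensional (RatFunc k) L] [IsGalois (RatFunc k) L]
    (A : ValuationSubring L) (hA : AtInfty (k := k) A)
    (hU : ∀ A' : ValuationSubring L, (∀ c : k, cc k L c ∈ A') → xx k L ∈ A' →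
      ValuationSubring.inertiaSubgroup (RatFunc k) A' = ⊥)
    (ψ : (L ≃ₐ[RatFunc k] L) →* G) (hψ : Function.Injective ψ) (P : Subgroup G) (c : G)
    (hP : (A.decompositionSubgroup (RatFunc k)).map ψ = P ⊔ Subgroup.zpowers c) :
    Rz k P c ψ.range := by
  refine ⟨?_, ?_⟩
  · rw [← hP]
    exact Subgroup.map_le_range ψ _
  · refine (MP7b0bad.all_T0 k ψ.range ((P ⊔ Subgroup.zpowers c).subgroupOf ψ.range)).2 ?_
    refine ⟨L, inferInstance, inferInstance, inferInstance, inferInstance,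
      (MonoidHom.ofInjective hψ).symm, ?_, A, hA.1, hA.2, ?_⟩
    · exact hU
    · rw [SnT.prf_SIner k L A hA]
      ext σ
      rw [Subgroup.mem_map]
      constructor
      · intro hσ
        refine ⟨MonoidHom.ofInjective hψ σ, ?_, ?_⟩
        · rw [Subgroup.mem_subgroupOf, ← hP]
          exact ⟨σ, hσ, rfl⟩
        · exact (MonoidHom.ofInjective hψ).symm_apply_apply σ
      · rintro ⟨M, hM, h⟩
        rw [Subgroup.mem_subgroupOf, ← hP] at hM
        obtain ⟨τ, hτ, hτM⟩ := hM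
        have h1 : M = MonoidHom.ofInjective hψ σ := by
          rw [← h]
          exact ((MonoidHom.ofInjective hψ).apply_symm_apply M).symm
        have h2 : (M : G) = ψ σ := by rw [h1]; rfl
        have h3 : τ = σ := hψ (hτM.trans h2)
        rw [← h3]
        exact hτ

theorem TSeed_L (hTam : TTam) (hCnt : TCnt) (hGrp : TGrp) (p : ℕ) [Fact p.Prime] (k : Type)
    [Field k] [IsAlgClosed k] [CharP k p] (F E : Type) [Field F] [Finite F] [Field E] [Finite E]
    [CharP E p] (j : F →+* E) (a : Eˣ) (hp2 : p ≠ 2) (hcard : Nat.card E = Nat.card F ^ 2)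
    (ha : orderOf a = 2 * (Nat.card F - 1)) (ι : E →+* k) (n : ℕ) (hn : 0 < n)
    (hq : Nat.card F = p ^ n) (L : Type) [Field L] [Algebra (RatFunc k) L]
    [FiniteDimensional (RatFunc k) L] [IsGalois (RatFunc k) L] (A : ValuationSubring L)
    (hA : AtInfty (k := k) A) (z y : L) (β : E) (hB : Bt ι (p ^ n) A z y) (hβ : β ≠ 0)
    (hup : ∀ σ : L ≃ₐ[RatFunc k] L, σ • A = A → σ z = z → ∀ b : E,
      σ y = y + cc k L (ι b) * z → (b / β) ^ (p ^ n) = b / β)
    (ρ : (L ≃ₐ[RatFunc k] L) →* SpecialLinearGroup (Fin 2) E) (hinj : Function.Injective ρ)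
    (hρ : ∀ σ : L ≃ₐ[RatFunc k] L,
      σ z = cc k L (ι ((ρ σ).1 0 0)) * z + cc k L (ι ((ρ σ).1 1 0)) * y ∧
      σ y = cc k L (ι ((ρ σ).1 0 1)) * z + cc k L (ι ((ρ σ).1 1 1)) * y)
    (hU : ∀ A' : ValuationSubring L, (∀ c : k, cc k L c ∈ A') → xx k L ∈ A' →
      ValuationSubring.inertiaSubgroup (RatFunc k) A' = ⊥) :
    ∃ H : Subgroup (SpecialLinearGroup (Fin 2) E),
      Rz k ((U2 F).map (SpecialLinearGroup.map j)) (h2 a) H := by
  -- the decomposition group is upper triangular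
  have hlow : ∀ σ : L ≃ₐ[RatFunc k] L, σ • A = A → (ρ σ).1 1 0 = 0 := by
    intro σ hσ
    by_contra hne
    have h1 := hB.big ((ρ σ).1 0 0) ((ρ σ).1 1 0) hne
    rw [← (hρ σ).1] at h1
    apply h1
    have h2 := F8_dec A σ hσ z ((A.mem_nonunits_iff).1 hB.zA)
    exact (A.valuation_le_one_iff _).1 h2.le
  have hz : ∀ σ : L ≃ₐ[RatFunc k] L, σ • A = A → σ z = cc k L (ι ((ρ σ).1 0 0)) * z := by
    intro σ hσ
    rw [(hρ σ).1, hlow σ hσ, map_zero, map_zero, zero_mul, add_zero]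
  obtain ⟨φ, hφ⟩ := hGrp p F E j a ((A.decompositionSubgroup (RatFunc k)).map ρ) β hp2 hcard ha
    (by
      rintro _ ⟨σ, hσ, rfl⟩
      exact hlow σ hσ)
    hβ
    (by
      rintro _ ⟨σ, hσ, rfl⟩
      apply ι.injective
      rw [map_pow, map_one, hq]
      exact hTam p k n hn hp2 L A hA z hB.zV hB.z0 hB.zA σ hσ _ (hz σ hσ))
    (by
      rintro _ ⟨σ, hσ, rfl⟩ h1
      rw [hq]
      have hdet : (ρ σ).1 0 0 * (ρ σ).1 1 1 = 1 := by
        have h4 := (ρ σ).2
        rw [Matrix.det_fin_two, hlow σ hσ, mul_zero, sub_zero] at h4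
        exact h4
      have h11 : (ρ σ).1 1 1 = 1 := by rwa [h1, one_mul] at hdet
      refine hup σ hσ ?_ _ ?_
      · rw [hz σ hσ, h1, map_one, map_one, one_mul]
      · rw [(hρ σ).2, h11, map_one, map_one, one_mul, add_comm])
    (by
      rw [Subgroup.card_map_of_injective hinj, hq]
      exact hCnt p k n hn hp2 L A hA y hB.yV hB.yA)
  have hψ : Function.Injective (φ.toMonoidHom.comp ρ) := φ.injective.comp hinj
  refine ⟨(φ.toMonoidHom.comp ρ).range, ?_⟩
  refine TSeed_core k (SpecialLinearGroup (Fin 2) E) L A hA hU (φ.toMonoidHom.comp ρ) hψ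
    ((U2 F).map (SpecialLinearGroup.map j)) (h2 a) ?_
  rw [← hφ, Subgroup.map_map]

theorem prf_TSeed (hSep : TSep) (hUnr : TUnr) (hRep : TRep) (hUp : TUp) (hTam : TTam)
    (hCnt : TCnt) (hGrp : TGrp) : TSeed := by
  intro p hp k _ _ _ F E _ _ _ _ _ j a hp2 hcard ha
  have hchF : CharP F p := (RingHom.charP_iff j j.injective p).2 inferInstance
  obtain ⟨ι⟩ := TSeed_emb p k E
  obtain ⟨n, hn, hq⟩ := TSeed_card p F
  have hpp := hp.out.two_le
  have hq2 : 2 ≤ p ^ n := by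
    calc 2 ≤ p := hpp
      _ = p ^ 1 := (pow_one p).symm
      _ ≤ p ^ n := Nat.pow_le_pow_right (by omega) hn
  have hqk : ((p ^ n : ℕ) : k) = 0 := by
    rw [Nat.cast_pow, CharP.cast_eq_zero, zero_pow hn.ne']
  have hcardE : Nat.card E = (p ^ n) ^ 2 := by rw [hcard, hq]
  obtain ⟨-, -, hsep⟩ := hSep k (p ^ n) hq2 hqk
  have : FiniteDimensional (RatFunc k) (FT k (p ^ n)).SplittingField :=
    Polynomial.IsSplittingField.finiteDimensional _ (FT k (p ^ n))
  have : IsGalois (RatFunc k) (FT k (p ^ n)).SplittingField :=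
    IsGalois.of_separable_splitting_field hsep
  obtain ⟨A, hA⟩ := prf_F4 k (FT k (p ^ n)).SplittingField
  obtain ⟨z, y, β, hB, hβ, hup⟩ :=
    hUp p k n hn hp2 E hcardE ι (FT k (p ^ n)).SplittingField A hA
  obtain ⟨⟨ρ, hinj, hρ⟩, -⟩ :=
    hRep p k n hn E hcardE ι (FT k (p ^ n)).SplittingField A z y hB
  exact TSeed_L hTam hCnt hGrp p k F E j a hp2 hcard ha ι n hn hq
    (FT k (p ^ n)).SplittingField A hA z y β hB hβ hup ρ hinj hρ
    (fun A' h1 h2 => hUnr p k n hn (FT k (p ^ n)).SplittingField A' h1 h2)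

end MP7b0bad.AdT
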