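import Pool.Agent.Work.MP_7b0bad_ag.AdT.Stmts

set_option autoImplicit false

/-!
# Block AdT: the polynomial `Y ^ (r ^ 4 - 1) + g Y ^ (r ^ 2 - 1) + 1` is monic and separable
-/

open Polynomial

namespace MP7b0bad.AdT

private theorem TSep_pow {R : Type} [CommRing R] (n : ℕ) (h : 1 ≤ n) :
    (X : R[X]) * derivative (X ^ n : R[X]) = C (n : R) * X ^ n := by
  rw [derivative_X_pow]
  obtain ⟨m, rfl⟩ : ∃ m, n = m + 1 := ⟨n - 1, by omega⟩
  rw [Nat.add_sub_cancel, pow_succ]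
  ring

theorem prf_TSep : TSep := by
  intro k _ r hr hr0
  have h4 : r ^ 4 = r ^ 2 * r ^ 2 := by ring
  have h2 : 4 ≤ r ^ 2 := by nlinarith
  have h42 : 4 * r ^ 2 ≤ r ^ 4 := by rw [h4]; exact Nat.mul_le_mul_right _ h2
  have hlt : (C (gx r (RatFunc.X : RatFunc k)) * X ^ (r ^ 2 - 1) + 1 : (RatFunc k)[X]).degree <
      ((r ^ 4 - 1 : ℕ) : WithBot ℕ) := by
    refine lt_of_le_of_lt (degree_add_le _ _)
      (max_lt (lt_of_le_of_lt (degree_C_mul_X_pow_le _ _) ?_) ?_)
    · exact_mod_cast (by omega : r ^ 2 - 1 < r ^ 4 - 1)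
    · rw [degree_one]
      exact_mod_cast (by omega : 0 < r ^ 4 - 1)
  have hr0' : ((r : ℕ) : RatFunc k) = 0 := by
    rw [← map_natCast (algebraMap k (RatFunc k)) r, hr0, map_zero]
  have hc1 : ((r ^ 4 - 1 : ℕ) : RatFunc k) = -1 := by
    rw [Nat.cast_sub (by omega), Nat.cast_pow, hr0', Nat.cast_one]
    ring
  have hc2 : ((r ^ 2 - 1 : ℕ) : RatFunc k) = -1 := by
    rw [Nat.cast_sub (by omega), Nat.cast_pow, hr0', Nat.cast_one]
    ring
  refine ⟨?_, ?_, ?_⟩
  · rw [FT, add_assoc]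
    exact monic_X_pow_add hlt
  · rw [FT, add_assoc]
    exact natDegree_eq_of_degree_eq_some
      (by rw [degree_add_eq_left_of_degree_lt (by rwa [degree_X_pow]), degree_X_pow])
  · have hder : (X : (RatFunc k)[X]) * derivative (FT k r) = 1 - FT k r := by
      have e1 := TSep_pow (R := RatFunc k) (r ^ 4 - 1) (by omega)
      have e2 := TSep_pow (R := RatFunc k) (r ^ 2 - 1) (by omega)
      rw [hc1] at e1
      rw [hc2] at e2
      rw [FT, derivative_add, derivative_add, derivative_C_mul, derivative_one, add_zero,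
        mul_add, e1, mul_left_comm, e2, C_neg, C_1]
      ring
    refine ⟨1, X, ?_⟩
    rw [hder]
    ring

end MP7b0bad.AdT
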