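import Pool.Agent.Work.MP_7b0bad_ag.AdT.Stmts
import Pool.Agent.Work.MP_7b0bad_ag.SnT.Main

set_option autoImplicit false

/-!
# Block AdT, item TTam (helper38): the tame character of the line of small roots
-/

open Polynomial Pointwise

namespace MP7b0bad.AdT

open SnT (cc xx)

theorem prf_TTam (hKap : TKap) : TTam := by
  intro p _ k _ _ _ n hn hp L _ _ _ _ A hA z hz hz0 hzn σ hσ a ha
  obtain ⟨κ, hκ0, _, hκ⟩ := hKap p k n hn hp L A hA z hz hz0 hzn
  have hσ' : σ ∈ A.decompositionSubgroup (RatFunc k) := hσ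
  set K : L := (z ^ (2 * (p ^ n - 1)) * xx k L ^ (p ^ n))⁻¹ with hK
  set b : k := (a ^ (2 * (p ^ n - 1)))⁻¹ with hb
  have h1 : σ (K - cc k L κ) ∈ A.nonunits := (SnT.Main_non σ hσ' _).2 hκ
  have hσx : σ (xx k L) = xx k L := σ.commutes _
  have hσK : σ K = cc k L b * K := by
    rw [hK, map_inv₀, map_mul, map_pow, map_pow, hσx, ha, hb, map_inv₀, map_pow, mul_pow,
      mul_assoc, mul_inv]
  rw [map_sub, SnT.Main_cc, hσK] at h1
  have h2 : cc k L b * K - cc k L (b * κ) ∈ A.nonunits := by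
    have h3 : cc k L b * K - cc k L (b * κ) = cc k L b * (K - cc k L κ) := by
      rw [map_mul]; ring
    rw [h3, ValuationSubring.mem_nonunits_iff, map_mul]
    have h4 : A.valuation (cc k L b) ≤ 1 := (A.valuation_le_one_iff _).2 (hA.1 b)
    have h5 : A.valuation (K - cc k L κ) < 1 := (ValuationSubring.mem_nonunits_iff A).1 hκ
    calc A.valuation (cc k L b) * A.valuation (K - cc k L κ)
        ≤ 1 * A.valuation (K - cc k L κ) := by gcongr
      _ = A.valuation (K - cc k L κ) := one_mul _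
      _ < 1 := h5
  have h6 : κ = b * κ := SnT.Main_dis hA h1 h2
  have h7 : b = 1 := by
    have : b * κ = 1 * κ := by rw [one_mul]; exact h6.symm
    exact mul_right_cancel₀ hκ0 this
  rw [hb, inv_eq_one] at h7
  exact h7

end MP7b0bad.AdT
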