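import Pool.Agent.Work.MP_7b0bad_ag.AdT.Stmts
import Pool.Agent.Work.MP_7b0bad_ag.Ad.DRep
import Pool.Agent.Work.MP_7b0bad_ag.Ad.DBas
import Pool.Agent.Work.MP_7b0bad_ag.SnT.SCharE

set_option autoImplicit false

/-!
# Item TUp of the block AdT: upper bound for the wild inertia group
-/

open Polynomial Pointwise Matrix

namespace MP7b0bad.AdT

open SnT (cc xx)

section

variable {L : Type} [Field L] {A : ValuationSubring L}

/-- a product of elements of value at least one -/
theorem TUp_ge (s : Multiset L) (h : ∀ r ∈ s, 1 ≤ A.valuation r) : 1 ≤ A.valuation s.prod := by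
  induction s using Multiset.induction_on with
  | empty => simp
  | cons a t ih =>
    rw [Multiset.prod_cons, map_mul]
    exact one_le_mul (h a (Multiset.mem_cons_self a t))
      (ih fun r hr => h r (Multiset.mem_cons_of_mem hr))

end

/-- the residue of an element `s` with `s ^ r + s` in the maximal ideal -/
theorem TUp_res {k : Type} [Field k] [IsAlgClosed k] {L : Type} [Field L] [Algebra (RatFunc k) L]
    (A : ValuationSubring L) {r : ℕ} (hr : 2 ≤ r) {s : L} (hs : s ^ r + s ∈ A.nonunits) :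
    ∃ t : k, t ^ r + t = 0 ∧ s - cc k L t ∈ A.nonunits := by
  have hdeg : (X : k[X]).degree < (X ^ r : k[X]).degree := by
    rw [degree_X_pow, degree_X]
    exact_mod_cast (by omega : 1 < r)
  have hm : (X ^ r + X : k[X]).Monic := (monic_X_pow r).add_of_left hdeg
  have hprod : (X ^ r + X : k[X]) = ((X ^ r + X : k[X]).roots.map (X - C ·)).prod :=
    (IsAlgClosed.splits (X ^ r + X : k[X])).eq_prod_roots_of_monic hm
  by_contra hno
  push Not at hno
  have h1 : s ^ r + s = (((X ^ r + X : k[X]).roots).map fun t => s - cc k L t).prod := by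
    have h2 := congrArg (Polynomial.eval₂ (cc k L) s) hprod
    rw [Polynomial.eval₂_multiset_prod, Multiset.map_map] at h2
    simp only [Polynomial.eval₂_add, Polynomial.eval₂_pow, Polynomial.eval₂_X] at h2
    rw [h2]
    congr 1
    refine Multiset.map_congr rfl fun t _ => ?_
    simp
  have h3 : 1 ≤ A.valuation (s ^ r + s) := by
    rw [h1]
    refine TUp_ge _ fun x hx => ?_
    obtain ⟨t, ht, rfl⟩ := Multiset.mem_map.1 hx
    have h4 : t ^ r + t = 0 := by
      have h5 := Polynomial.isRoot_of_mem_roots ht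
      simpa [Polynomial.IsRoot.def] using h5
    have h6 := hno t h4
    rw [ValuationSubring.mem_nonunits_iff] at h6
    exact not_lt.1 h6
  rw [ValuationSubring.mem_nonunits_iff] at hs
  exact absurd hs (not_lt.2 h3)

/-- change of the second vector of the basis -/
theorem TUp_Bt {k E : Type} [Field k] [Field E] {ι : E →+* k} {r : ℕ} {L : Type} [Field L]
    [Algebra (RatFunc k) L] {A : ValuationSubring L} {z y : L} (h : Bt ι r A z y) (l : E) :
    Bt ι r A z (cc k L (ι l) * z + y) := by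
  have hm : ∀ a b : E, cc k L (ι a) * z + cc k L (ι b) * (cc k L (ι l) * z + y) =
      cc k L (ι (a + b * l)) * z + cc k L (ι b) * y := by
    intro a b
    simp only [map_add, map_mul]
    ring
  have h1 : cc k L (ι l) * z + y = cc k L (ι l) * z + cc k L (ι 1) * y := by
    simp only [map_one, one_mul]
  refine ⟨h.zV, h.z0, h.zA, ?_, ?_, ?_, ?_, ?_, ?_⟩
  · rw [h1]
    exact h.mem l 1
  · rw [h1]
    exact h.big l 1 one_ne_zero
  · intro a b
    rw [hm]
    exact h.mem _ _
  · intro u hu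
    obtain ⟨a, b, hab⟩ := h.span u hu
    refine ⟨a - b * l, b, ?_⟩
    rw [hm, hab]
    congr 3
    ring_nf
  · intro a b hab
    rw [hm] at hab
    obtain ⟨h2, h3⟩ := h.ind _ _ hab
    subst h3
    refine ⟨?_, rfl⟩
    simpa using h2
  · intro a b hb
    rw [hm]
    exact h.big _ _ hb

theorem prf_TUp (hBas : TBas) (hRep : TRep) (hApx : TApx) : TUp := by
  intro p _ k _ _ _ n hn hp2 E _ _ hE ι L _ _ _ _ _ A hA
  have hpp : p.Prime := Fact.out
  have hr2 : 2 ≤ p ^ n := le_trans hpp.two_le (Nat.le_self_pow hn.ne' p)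
  have hCL : CharP L p := (RingHom.charP_iff (cc k L) (cc k L).injective p).1 inferInstance
  have hExp : ExpChar L p := ExpChar.prime hpp
  have hExk : ExpChar k p := ExpChar.prime hpp
  obtain ⟨z, y₀, hB⟩ := hBas p k n hn hp2 E hE ι L A hA
  obtain ⟨-, θ, hθ, hM⟩ := hRep p k n hn E hE ι L A z y₀ hB
  obtain ⟨c, hc, hcQ, hap⟩ := hApx p k n hn hp2 L A hA z hB.zV hB.z0 hB.zA
  obtain ⟨c', rfl⟩ : ∃ c' : E, c = ι c' := Ad.DRep_fix ι c (by rw [hE]; exact hcQ)
  have hc' : c' ≠ 0 := by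
    rintro rfl
    exact hc (map_zero ι)
  have hz0 := hB.z0
  set r := p ^ n with hr
  -- constants
  have hcθ : (c' / θ) ^ (r ^ 2) = c' / θ := by
    rw [← hE]
    haveI : Fintype E := Fintype.ofFinite E
    rw [Nat.card_eq_fintype_card]
    exact FiniteField.pow_card _
  have hθL : cc k L (ι θ) ≠ 0 := by
    rw [Ne, map_eq_zero, map_eq_zero]
    exact hθ
  have hcL : cc k L (ι c') ≠ 0 := by
    rw [Ne, map_eq_zero, map_eq_zero]
    exact hc'
  set h : L := cc k L (ι c') * (z⁻¹) ^ 2 * xx k L ^ ((r - 1) / 2) with hh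
  -- the Artin-Schreier equation for w₁
  have key : ∀ y : L, z * y ^ (r ^ 2) - z ^ (r ^ 2) * y = cc k L (ι θ) →
      (cc k L (ι (-(c' / θ))) * (y / z)) ^ (r ^ 2) - cc k L (ι (-(c' / θ))) * (y / z) =
        - (cc k L (ι c') * (z⁻¹) ^ (r ^ 2 + 1)) := by
    intro y hy
    have e1 : (y / z) ^ (r ^ 2) - y / z = cc k L (ι θ) * (z⁻¹) ^ (r ^ 2 + 1) := by
      have f1 : z * z⁻¹ = 1 := mul_inv_cancel₀ hz0
      have f2 : z ^ (r ^ 2) * (z⁻¹) ^ (r ^ 2) = 1 := by rw [← mul_pow, f1, one_pow]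
      rw [← hy, div_eq_mul_inv, mul_pow, pow_succ]
      linear_combination (-(y ^ (r ^ 2) * (z⁻¹) ^ (r ^ 2))) * f1 + (y * z⁻¹) * f2
    have e2 : (cc k L (ι (-(c' / θ)))) ^ (r ^ 2) = cc k L (ι (-(c' / θ))) := by
      rw [← map_pow, ← map_pow]
      congr 2
      rw [← hE]
      haveI : Fintype E := Fintype.ofFinite E
      rw [Nat.card_eq_fintype_card]
      exact FiniteField.pow_card _
    rw [mul_pow, e2, ← mul_sub, e1, ← mul_assoc, ← map_mul, ← map_mul]
    have e3 : -(c' / θ) * θ = - c' := by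
      rw [neg_mul, div_mul_cancel₀ _ hθ]
    rw [e3, map_neg, map_neg, neg_mul]
  have frob : ∀ a b : L, (a - b) ^ r = a ^ r - b ^ r := fun a b => sub_pow_expChar_pow a b n
  -- s
  set w₁ : L := cc k L (ι (-(c' / θ))) * (y₀ / z) with hw₁
  have hs : (w₁ ^ r - w₁ - h) ^ r + (w₁ ^ r - w₁ - h) ∈ A.nonunits := by
    have e1 : (w₁ ^ r - w₁ - h) ^ r + (w₁ ^ r - w₁ - h) =
        - (h ^ r + h + cc k L (ι c') * (z⁻¹) ^ (r ^ 2 + 1)) := by
      rw [frob, frob, ← pow_mul, ← sq]
      have := key y₀ hM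
      linear_combination this
    rw [e1, ValuationSubring.mem_nonunits_iff, Valuation.map_neg,
      ← ValuationSubring.mem_nonunits_iff]
    exact hap
  obtain ⟨t, ht, hst⟩ := TUp_res (k := k) A hr2 hs
  obtain ⟨b, hb⟩ : ∃ b : k, b ^ r - b = t := by
    have hdeg : (X ^ r - X - C t : k[X]).degree ≠ 0 := by
      have h1 : (X + C t : k[X]).degree < (X ^ r : k[X]).degree := by
        rw [degree_X_pow, degree_X_add_C]
        exact_mod_cast (by omega : 1 < r)
      have h2 : (X ^ r - X - C t : k[X]).degree = (X ^ r : k[X]).degree := by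
        rw [sub_sub]
        exact degree_sub_eq_left_of_degree_lt h1
      rw [h2, degree_X_pow]
      exact_mod_cast (by omega : r ≠ 0)
    obtain ⟨b, hb⟩ := IsAlgClosed.exists_root _ hdeg
    refine ⟨b, ?_⟩
    rw [IsRoot.def, eval_sub, eval_sub, eval_pow, eval_X, eval_C] at hb
    exact sub_eq_zero.1 hb
  have hbQ : b ^ (r ^ 2) = b := by
    have e1 : b ^ r = b + t := by rw [← hb]; ring
    have e2 : (b + t) ^ r = b ^ r + t ^ r := add_pow_expChar_pow b t p n
    rw [sq, pow_mul, e1, e2, e1]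
    linear_combination ht
  obtain ⟨b', rfl⟩ : ∃ b' : E, b = ι b' := Ad.DRep_fix ι b (by rw [hE]; exact hbQ)
  set l : E := b' * θ / c' with hl
  refine ⟨z, cc k L (ι l) * z + y₀, -(θ / c'), TUp_Bt hB l, neg_ne_zero.2 (div_ne_zero hθ hc'), ?_⟩
  intro σ hσA hσz b₁ hσy
  -- the new w₁
  set w₂ : L := cc k L (ι (-(c' / θ))) * ((cc k L (ι l) * z + y₀) / z) with hw₂
  have hw21 : w₂ = w₁ - cc k L (ι b') := by
    rw [hw₂, hw₁, add_div, mul_div_cancel_right₀ _ hz0, mul_add, ← map_mul, ← map_mul]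
    have e3 : -(c' / θ) * l = - b' := by
      rw [hl]
      field_simp
    rw [e3, map_neg, map_neg]
    ring
  have hs2 : w₂ ^ r - w₂ - h ∈ A.nonunits := by
    have e1 : w₂ ^ r - w₂ - h = (w₁ ^ r - w₁ - h) - cc k L t := by
      rw [hw21, frob, ← hb, map_sub, map_pow]
      ring
    rw [e1]
    exact hst
  have hσc : ∀ a : k, σ (cc k L a) = cc k L a := fun a => σ.commutes _
  have hσx : σ (xx k L) = xx k L := σ.commutes _
  have hσh : σ h = h := by
    rw [hh, map_mul, map_mul, map_pow, map_pow, map_inv₀, hσz, hσc, hσx]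
  have hσw : σ w₂ = w₂ + cc k L (ι (-(c' / θ) * b₁)) := by
    rw [hw₂, map_mul, map_div₀, hσz, hσc, hσy, add_div, mul_add,
      mul_div_cancel_right₀ _ hz0, ← map_mul, ← map_mul]
  have hσs : σ (w₂ ^ r - w₂ - h) = (w₂ ^ r - w₂ - h) +
      cc k L (ι ((-(c' / θ) * b₁) ^ r - (-(c' / θ) * b₁))) := by
    have frob' : ∀ a b : L, (a + b) ^ r = a ^ r + b ^ r := fun a b => add_pow_expChar_pow a b p n
    rw [map_sub, map_sub, map_pow, hσw, hσh, frob']
    rw [map_sub, map_sub, map_pow, map_pow]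
    ring
  have hmem : A.valuation (cc k L (ι ((-(c' / θ) * b₁) ^ r - (-(c' / θ) * b₁)))) < 1 := by
    rw [ValuationSubring.mem_nonunits_iff] at hs2
    have h1 := F8_dec A σ hσA _ hs2
    have h2 : cc k L (ι ((-(c' / θ) * b₁) ^ r - (-(c' / θ) * b₁))) =
        σ (w₂ ^ r - w₂ - h) - (w₂ ^ r - w₂ - h) := by
      rw [hσs]
      ring
    rw [h2]
    exact lt_of_le_of_lt (Valuation.map_sub _ _ _) (max_lt h1 hs2)
  have hzero : (-(c' / θ) * b₁) ^ r - (-(c' / θ) * b₁) = 0 := by
    by_contra hne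
    have h1 : ι ((-(c' / θ) * b₁) ^ r - (-(c' / θ) * b₁)) ≠ 0 := by
      rw [Ne, map_eq_zero]
      exact hne
    rw [Ad.DBas_C hA _ h1] at hmem
    exact lt_irrefl _ hmem
  have e4 : b₁ / -(θ / c') = -(c' / θ) * b₁ := by
    field_simp
  rw [e4]
  exact sub_eq_zero.1 hzero

end MP7b0bad.AdT
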