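import Pool.Agent.Work.MP_7b0bad_ag.AdT.Defs
import Pool.Agent.Work.MP_7b0bad_ag.AdT.Stmts
import Pool.Agent.Work.MP_7b0bad_ag.AdT.TApx
import Pool.Agent.Work.MP_7b0bad_ag.AdT.TBas
import Pool.Agent.Work.MP_7b0bad_ag.AdT.TCnt
import Pool.Agent.Work.MP_7b0bad_ag.AdT.TGrp
import Pool.Agent.Work.MP_7b0bad_ag.AdT.TKap
import Pool.Agent.Work.MP_7b0bad_ag.AdT.TLoc
import Pool.Agent.Work.MP_7b0bad_ag.AdT.TNrm
import Pool.Agent.Work.MP_7b0bad_ag.AdT.TPSL
import Pool.Agent.Work.MP_7b0bad_ag.AdT.TRep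
import Pool.Agent.Work.MP_7b0bad_ag.AdT.TSL2
import Pool.Agent.Work.MP_7b0bad_ag.AdT.TSeed
import Pool.Agent.Work.MP_7b0bad_ag.AdT.TSep
import Pool.Agent.Work.MP_7b0bad_ag.AdT.TTam
import Pool.Agent.Work.MP_7b0bad_ag.AdT.TUnr
import Pool.Agent.Work.MP_7b0bad_ag.AdT.TUp
import Pool.Agent.Work.MP_7b0bad_ag.AdT.TVal
import Pool.Agent.Work.MP_7b0bad_ag.MT.All
import Pool.Agent.Work.MP_7b0bad_ag.SL.All

set_option autoImplicit false

/-!
# Block AdT: assembly without hypotheses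
-/

namespace MP7b0bad.AdT

theorem all_TSep : TSep := prf_TSep
theorem all_TVal : TVal := prf_TVal
theorem all_TBas : TBas := prf_TBas all_TSep all_TVal
theorem all_TUnr : TUnr := prf_TUnr
theorem all_TRep : TRep := prf_TRep
theorem all_TKap : TKap := prf_TKap all_TVal
theorem all_TApx : TApx := prf_TApx all_TVal all_TKap
theorem all_TUp : TUp := prf_TUp all_TBas all_TRep all_TApx
theorem all_TTam : TTam := prf_TTam all_TKap
theorem all_TCnt : TCnt := prf_TCnt all_TVal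
theorem all_TGrp : TGrp := prf_TGrp
theorem all_TSeed : TSeed :=
  prf_TSeed all_TSep all_TUnr all_TRep all_TUp all_TTam all_TCnt all_TGrp
theorem all_TNrm : TNrm := prf_TNrm
theorem all_TLoc : TLoc := prf_TLoc Ad.all_LRz all_TSeed
theorem all_TSL2 : TSL2 := prf_TSL2 all_TNrm all_TLoc MT.all_MRz SL.all_SLFin MT.all_MSL2
theorem all_TPSL : TPSL := prf_TPSL all_TSL2 SL.all_SLQuo

end MP7b0bad.AdT
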