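import Pool.Agent.Work.MP_7b0bad_ag.Ad.Stmts

set_option autoImplicit false

/-!
# Block AdT: a second family of additive covers with group in `SL_2`: definitions

`r = |F|` odd, `Q = r ^ 2 = |E|`, `g = x ^ d - x ^ e` with `d = r (r + 1) / 2`, `e = (r - 1) / 2`;
the additive polynomial `Y ^ (Q ^ 2) + g Y ^ Q + Y`.
-/

open Polynomial Matrix

namespace MP7b0bad.AdT

open SnT (cc xx)

/-- `x ^ (r (r + 1) / 2) - x ^ ((r - 1) / 2)` -/
def gx {R : Type} [CommRing R] (r : ℕ) (x : R) : R := x ^ (r * (r + 1) / 2) - x ^ ((r - 1) / 2)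

/-- `Y ^ (r ^ 4 - 1) + g Y ^ (r ^ 2 - 1) + 1` over `k(x)` -/
noncomputable def FT (k : Type) [Field k] (r : ℕ) : (RatFunc k)[X] :=
  X ^ (r ^ 4 - 1) + C (gx r (RatFunc.X : RatFunc k)) * X ^ (r ^ 2 - 1) + 1

theorem aeval_FT {k : Type} [Field k] (r : ℕ) {L : Type} [Field L] [Algebra (RatFunc k) L] (y : L) :
    aeval y (FT k r) = y ^ (r ^ 4 - 1) + gx r (xx k L) * y ^ (r ^ 2 - 1) + 1 := by
  simp only [FT, gx, xx, map_add, map_mul, map_pow, aeval_X, aeval_C, map_sub, map_one]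

/-- the roots of the additive polynomial `Y ^ (r ^ 4) + g Y ^ (r ^ 2) + Y` -/
def Vt (k : Type) [Field k] (r : ℕ) (L : Type) [Field L] [Algebra (RatFunc k) L] : Set L :=
  {y | y ^ (r ^ 4) + gx r (xx k L) * y ^ (r ^ 2) + y = 0}

/-- `z`, `y` is a basis over the finite field `E` (embedded in `k` by `ι`) of the space of the roots
of the additive polynomial, `z` in the maximal ideal of `A` and `y` not in `A` -/
structure Bt {k E : Type} [Field k] [Field E] (ι : E →+* k) (r : ℕ) {L : Type} [Field L]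
    [Algebra (RatFunc k) L] (A : ValuationSubring L) (z y : L) : Prop where
  zV : z ∈ Vt k r L
  z0 : z ≠ 0
  zA : z ∈ A.nonunits
  yV : y ∈ Vt k r L
  yA : y ∉ A
  mem : ∀ a b : E, cc k L (ι a) * z + cc k L (ι b) * y ∈ Vt k r L
  span : ∀ u ∈ Vt k r L, ∃ a b : E, u = cc k L (ι a) * z + cc k L (ι b) * y
  ind : ∀ a b : E, cc k L (ι a) * z + cc k L (ι b) * y = 0 → a = 0 ∧ b = 0
  big : ∀ a b : E, b ≠ 0 → cc k L (ι a) * z + cc k L (ι b) * y ∉ A

end MP7b0bad.AdT
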