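import Pool.Agent.Work.MP_7b0bad_ag.AdT.Stmts

set_option autoImplicit false

/-!
# Item TRep: the Galois group acts on the additive roots through `SL_2`
-/

open Polynomial Matrix

namespace MP7b0bad.AdT

open SnT (cc xx)

section
variable {k : Type} [Field k] {E : Type} [Field E] (ι : E →+* k) {L : Type} [Field L]
  [Algebra (RatFunc k) L]

/-- `M` is the matrix of `σ` -/
def TRep_P (w v : L) (σ : L ≃ₐ[RatFunc k] L) (M : Matrix (Fin 2) (Fin 2) E) : Prop :=
  σ w = cc k L (ι (M 0 0)) * w + cc k L (ι (M 1 0)) * v ∧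
    σ v = cc k L (ι (M 0 1)) * w + cc k L (ι (M 1 1)) * v

theorem TRep_cc (σ : L ≃ₐ[RatFunc k] L) (c : k) : σ (cc k L c) = cc k L c :=
  σ.commutes _

theorem TRep_xx (σ : L ≃ₐ[RatFunc k] L) : σ (xx k L) = xx k L :=
  σ.commutes _

theorem TRep_gx (r : ℕ) (σ : L ≃ₐ[RatFunc k] L) : σ (gx r (xx k L)) = gx r (xx k L) := by
  simp only [gx, map_sub, map_pow, TRep_xx]

theorem TRep_V {r : ℕ} (σ : L ≃ₐ[RatFunc k] L) {y : L} (hy : y ∈ Vt k r L) :
    σ y ∈ Vt k r L := by
  have h : y ^ (r ^ 4) + gx r (xx k L) * y ^ (r ^ 2) + y = 0 := hy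
  have h1 := congrArg σ h
  rw [map_add, map_add, map_mul, map_pow, map_pow, TRep_gx, map_zero] at h1
  exact h1

theorem TRep_uniq {r : ℕ} {A : ValuationSubring L} {w v : L} (hB : Bt ι r A w v) {a b a' b' : E}
    (h : cc k L (ι a) * w + cc k L (ι b) * v = cc k L (ι a') * w + cc k L (ι b') * v) :
    a = a' ∧ b = b' := by
  have h1 : cc k L (ι (a - a')) * w + cc k L (ι (b - b')) * v = 0 := by
    rw [map_sub, map_sub, map_sub, map_sub]
    linear_combination h
  obtain ⟨h2, h3⟩ := hB.ind _ _ h1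
  exact ⟨sub_eq_zero.1 h2, sub_eq_zero.1 h3⟩

theorem TRep_Puniq {r : ℕ} {A : ValuationSubring L} {w v : L} (hB : Bt ι r A w v)
    {σ : L ≃ₐ[RatFunc k] L} {M N : Matrix (Fin 2) (Fin 2) E} (hM : TRep_P ι w v σ M)
    (hN : TRep_P ι w v σ N) : M = N := by
  obtain ⟨h1, h2⟩ := TRep_uniq ι hB (hM.1.symm.trans hN.1)
  obtain ⟨h3, h4⟩ := TRep_uniq ι hB (hM.2.symm.trans hN.2)
  ext i j
  fin_cases i <;> fin_cases j
  · exact h1
  · exact h3
  · exact h2
  · exact h4

theorem TRep_Pmul {w v : L} {σ τ : L ≃ₐ[RatFunc k] L} {M N : Matrix (Fin 2) (Fin 2) E}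
    (hM : TRep_P ι w v σ M) (hN : TRep_P ι w v τ N) : TRep_P ι w v (σ * τ) (M * N) := by
  refine ⟨?_, ?_⟩
  · rw [AlgEquiv.mul_apply, hN.1, map_add, map_mul, map_mul, TRep_cc, TRep_cc, hM.1, hM.2,
      Matrix.mul_apply, Matrix.mul_apply, Fin.sum_univ_two, Fin.sum_univ_two]
    simp only [map_add, map_mul]
    ring
  · rw [AlgEquiv.mul_apply, hN.2, map_add, map_mul, map_mul, TRep_cc, TRep_cc, hM.1, hM.2,
      Matrix.mul_apply, Matrix.mul_apply, Fin.sum_univ_two, Fin.sum_univ_two]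
    simp only [map_add, map_mul]
    ring

end

/-- the fixed elements of the Frobenius power are the elements of the finite field -/
theorem TRep_fix {F L : Type} [Field F] [Finite F] [Field L] (J : F →+* L) (t : L)
    (ht : t ^ Nat.card F = t) : ∃ a : F, t = J a := by
  classical
  have _ft : Fintype F := Fintype.ofFinite F
  by_contra hc
  push Not at hc
  have hq : 1 < Nat.card F := Finite.one_lt_card
  have hP : (X ^ Nat.card F - X : L[X]) ≠ 0 := FiniteField.X_pow_card_sub_X_ne_zero L hq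
  have hroot : insert t (Finset.univ.image J) ⊆ (X ^ Nat.card F - X : L[X]).roots.toFinset := by
    intro y hy
    rw [Multiset.mem_toFinset, mem_roots hP, IsRoot.def, eval_sub, eval_pow, eval_X, sub_eq_zero]
    rcases Finset.mem_insert.1 hy with h | h
    · rw [h, ht]
    · obtain ⟨a, -, rfl⟩ := Finset.mem_image.1 h
      rw [← map_pow, Nat.card_eq_fintype_card, FiniteField.pow_card]
  have h1 := Finset.card_le_card hroot
  have h2 : t ∉ Finset.univ.image J := by
    intro h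
    obtain ⟨a, -, h3⟩ := Finset.mem_image.1 h
    exact hc a h3.symm
  rw [Finset.card_insert_of_notMem h2, Finset.card_image_of_injective _ J.injective,
    Finset.card_univ, ← Nat.card_eq_fintype_card] at h1
  have h3 := (Multiset.toFinset_card_le (X ^ Nat.card F - X : L[X]).roots).trans
    (card_roots' (X ^ Nat.card F - X : L[X]))
  rw [FiniteField.X_pow_card_sub_X_natDegree_eq L hq] at h3
  omega

/-- the roots of `FT` are in `Vt` -/
theorem TRep_root {k : Type} [Field k] {r : ℕ} (hr : 1 < r) {L : Type} [Field L]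
    [Algebra (RatFunc k) L] {y : L} (hy : y ∈ (FT k r).rootSet L) : y ∈ Vt k r L := by
  have hr0 : 0 < r := by omega
  have h := (mem_rootSet.1 hy).2
  rw [aeval_FT] at h
  have e4 : r ^ 4 = r ^ 4 - 1 + 1 := by
    have := Nat.pow_pos (n := 4) hr0
    omega
  have e2 : r ^ 2 = r ^ 2 - 1 + 1 := by
    have := Nat.pow_pos (n := 2) hr0
    omega
  have a4 : y ^ (r ^ 4) = y ^ (r ^ 4 - 1) * y := by
    conv_lhs => rw [e4]
    exact pow_succ _ _
  have a2 : y ^ (r ^ 2) = y ^ (r ^ 2 - 1) * y := by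
    conv_lhs => rw [e2]
    exact pow_succ _ _
  show y ^ (r ^ 4) + gx r (xx k L) * y ^ (r ^ 2) + y = 0
  rw [a4, a2]
  linear_combination y * h

theorem prf_TRep : TRep := by
  intro p hp k _ _ n hn E _ _ hE ι L _ _ _ A w v hB
  classical
  have _ft : Fintype E := Fintype.ofFinite E
  have hCL : CharP L p := (RingHom.charP_iff (cc k L) (cc k L).injective p).1 inferInstance
  have hr : 1 < p ^ n := Nat.one_lt_pow hn.ne' hp.out.one_lt
  have hqn : Nat.card E = p ^ (n * 2) := by rw [hE, pow_mul]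
  let φ : L →+* L := iterateFrobenius L p (n * 2)
  have hφ : ∀ y : L, φ y = y ^ Nat.card E := fun y => by
    rw [hqn]; exact iterateFrobenius_def p (n * 2) y
  have hφ' : ∀ y : L, φ y = y ^ ((p ^ n) ^ 2) := fun y => by
    rw [hφ, hE]
  have hJ : ∀ a : E, φ (cc k L (ι a)) = cc k L (ι a) := by
    intro a
    rw [hφ, ← map_pow, ← map_pow, Nat.card_eq_fintype_card, FiniteField.pow_card]
  have hφφ : ∀ y ∈ Vt k (p ^ n) L, φ (φ y) = - (gx (p ^ n) (xx k L)) * φ y - y := by
    intro y hy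
    have h : y ^ ((p ^ n) ^ 4) + gx (p ^ n) (xx k L) * y ^ ((p ^ n) ^ 2) + y = 0 := hy
    have e : y ^ ((p ^ n) ^ 4) = (y ^ ((p ^ n) ^ 2)) ^ ((p ^ n) ^ 2) := by
      have e1 : (p ^ n) ^ 4 = (p ^ n) ^ 2 * (p ^ n) ^ 2 := (pow_add (p ^ n) 2 2)
      rw [e1]
      exact pow_mul _ _ _
    rw [e] at h
    rw [hφ', hφ']
    linear_combination h
  have hσφ : ∀ (σ : L ≃ₐ[RatFunc k] L) (y : L), σ (φ y) = φ (σ y) := by
    intro σ y
    rw [hφ, hφ, map_pow]
  -- the Moore determinant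
  have hδ0 : w * φ v - φ w * v ≠ 0 := by
    intro h0
    have h1 : (v / w) ^ Nat.card E = v / w := by
      rw [← hφ, map_div₀, div_eq_div_iff ((map_ne_zero φ).2 hB.z0) hB.z0]
      linear_combination h0
    obtain ⟨a, ha⟩ := TRep_fix ((cc k L).comp ι) _ h1
    rw [div_eq_iff hB.z0] at ha
    have h2 : cc k L (ι a) * w + cc k L (ι (-1)) * v = 0 := by
      rw [map_neg, map_neg, map_one, map_one]
      have h3 : v = cc k L (ι a) * w := ha
      linear_combination -h3
    exact one_ne_zero (neg_eq_zero.1 (hB.ind _ _ h2).2)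
  have hδφ : φ (w * φ v - φ w * v) = w * φ v - φ w * v := by
    rw [map_sub, map_mul, map_mul, hφφ v hB.yV, hφφ w hB.zV]
    ring
  obtain ⟨e, he⟩ := TRep_fix ((cc k L).comp ι) _ ((hφ _).symm.trans hδφ)
  have he' : w * φ v - φ w * v = cc k L (ι e) := he
  have hδσ : ∀ σ : L ≃ₐ[RatFunc k] L, σ (w * φ v - φ w * v) = w * φ v - φ w * v := by
    intro σ
    rw [he']
    exact TRep_cc σ _
  have hex : ∀ σ : L ≃ₐ[RatFunc k] L, ∃ M : SpecialLinearGroup (Fin 2) E,
      TRep_P ι w v σ M.1 := by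
    intro σ
    obtain ⟨a, c, h1⟩ := hB.span _ (TRep_V σ hB.zV)
    obtain ⟨b, d, h2⟩ := hB.span _ (TRep_V σ hB.yV)
    have h3 := hδσ σ
    rw [map_sub, map_mul, map_mul, hσφ, hσφ, h1, h2, map_add, map_add, map_mul, map_mul, map_mul,
      map_mul, hJ, hJ, hJ, hJ] at h3
    have h4 : (cc k L (ι (a * d - b * c)) - 1) * (w * φ v - φ w * v) = 0 := by
      simp only [map_sub, map_mul]
      linear_combination h3
    have h5 : a * d - b * c = 1 := by
      rcases mul_eq_zero.1 h4 with h | h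
      · have h6 : ((cc k L).comp ι) (a * d - b * c) = ((cc k L).comp ι) 1 := by
          rw [map_one]
          exact sub_eq_zero.1 h
        exact ((cc k L).comp ι).injective h6
      · exact absurd h hδ0
    refine ⟨⟨!![a, b; c, d], by rw [Matrix.det_fin_two_of]; exact h5⟩, ?_, ?_⟩
    · exact h1
    · exact h2
  choose ρ hρ using hex
  have hmul : ∀ σ τ, ρ (σ * τ) = ρ σ * ρ τ := by
    intro σ τ
    apply Subtype.ext
    exact TRep_Puniq ι hB (hρ (σ * τ)) (TRep_Pmul ι (hρ σ) (hρ τ))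
  refine ⟨⟨MonoidHom.mk' ρ hmul, ?_, hρ⟩, e, ?_, ?_⟩
  · rw [injective_iff_map_eq_one]
    intro σ hσ
    have h1 := hρ σ
    have h0 : ρ σ = 1 := hσ
    rw [h0] at h1
    have hw : σ w = w := by
      rw [h1.1]
      simp
    have hv : σ v = v := by
      rw [h1.2]
      simp
    have h2 : ∀ y ∈ (FT k (p ^ n)).rootSet L, σ y = y := by
      intro y hy
      obtain ⟨a, b, h4⟩ := hB.span y (TRep_root hr hy)
      rw [h4, map_add, map_mul, map_mul, hw, hv, TRep_cc, TRep_cc]
    have h3 : (σ : L →ₐ[RatFunc k] L) = AlgHom.id (RatFunc k) L := by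
      refine AlgHom.ext_of_adjoin_eq_top (IsSplittingField.adjoin_rootSet L (FT k (p ^ n)))
        fun y hy => ?_
      exact h2 y hy
    ext x
    exact DFunLike.congr_fun h3 x
  · intro h
    rw [h, map_zero, map_zero] at he'
    exact hδ0 he'
  · rw [← he', hφ', hφ']

end MP7b0bad.AdT
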